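import Mathlib

/-!
# Solutions of `Δ u = f(u)` on `ℝ³` whose positive phase lies in a half-space: definitions

Project HS3 (problem MP_66e6f4_an): rigidity for solutions of polynomial growth.
-/

namespace Pool.Agent.Helper35.HS3

open MeasureTheory Set Filter Topology Metric
open scoped ContDiff

/-- Euclidean three-space. -/
abbrev E := EuclideanSpace ℝ (Fin 3)

/-- The standard basis vectors. -/
noncomputable def bv (i : Fin 3) : E := EuclideanSpace.single i 1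

/-- The partial derivative `∂_i u`. -/
noncomputable def pd (i : Fin 3) (u : E → ℝ) (x : E) : ℝ := fderiv ℝ u x (bv i)

/-- The Laplacian. -/
noncomputable def lap (u : E → ℝ) (x : E) : ℝ := ∑ i, pd i (pd i u) x

/-- `|∇u|²`. -/
noncomputable def gsq (u : E → ℝ) (x : E) : ℝ := ∑ i, pd i u x ^ 2

/-- `∇u · ∇v`. -/
noncomputable def gdot (u v : E → ℝ) (x : E) : ℝ := ∑ i, pd i u x * pd i v x

/-- `|D²u|²`. -/
noncomputable def hsq (u : E → ℝ) (x : E) : ℝ := ∑ i, ∑ j, pd j (pd i u) x ^ 2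

/-- `|∇u - γ e₀|²`. -/
noncomputable def gsub (γ : ℝ) (u : E → ℝ) (x : E) : ℝ :=
  (pd 0 u x - γ) ^ 2 + pd 1 u x ^ 2 + pd 2 u x ^ 2

/-- The half-space `τ x₀ > 0` (used for `τ = 1` and `τ = -1`). -/
def Hs (τ : ℝ) : Set E := {x | 0 < τ * x 0}

/-- The weight `(1 - |y|²)₊`. -/
noncomputable def kk (y : E) : ℝ := max 0 (1 - ‖y‖ ^ 2)

/-- The integral of the weight. -/
noncomputable def k0 : ℝ := ∫ y, kk y

/-- The integral of the square of the weight. -/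
noncomputable def k1 : ℝ := ∫ y, kk y ^ 2

/-- The primitive of `f` which vanishes at `a`. -/
noncomputable def Fp (f : ℝ → ℝ) (a t : ℝ) : ℝ := ∫ s in a..t, f s

/-- The P-function `|∇u|²/2 - F(u)`. -/
noncomputable def PP (f : ℝ → ℝ) (a : ℝ) (u : E → ℝ) (x : E) : ℝ :=
  gsq u x / 2 - Fp f a (u x)

/-- Nonlinearities: `f ∈ C¹`, `f ≥ 0`, `f = 0` off `[a, A]` with `-A ≤ a ≤ 0 < A`; `K` bounds `f`
and its Lipschitz constant. -/
structure Nl (f : ℝ → ℝ) (a A K : ℝ) : Prop where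
  smooth : ContDiff ℝ 1 f
  nonneg : ∀ t, 0 ≤ f t
  a_nonpos : a ≤ 0
  A_pos : 0 < A
  neg_A : -A ≤ a
  K_pos : 0 < K
  left : ∀ t, t ≤ a → f t = 0
  right : ∀ t, A ≤ t → f t = 0
  le_K : ∀ t, f t ≤ K
  lip : ∀ s t, |f s - f t| ≤ K * |s - t|

/-- `C²` solutions of `Δ u = f(u)` whose positive phase is in `{x₀ > 0}`. -/
structure Sl (f : ℝ → ℝ) (u : E → ℝ) : Prop where
  smooth : ContDiff ℝ 2 u
  eq : ∀ x, lap u x = f (u x)
  neg : ∀ x : E, x 0 ≤ 0 → u x ≤ 0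

/-- The blow-down of `u` is `α x₀⁺ - β x₀⁻`. -/
structure BD (u : E → ℝ) (α β : ℝ) : Prop where
  β_nonneg : 0 ≤ β
  le : β ≤ α
  right : ∀ x : E, 0 ≤ x 0 → u x ≤ α * x 0
  left : ∀ x : E, x 0 ≤ 0 → u x ≤ β * x 0
  bdd : ∃ C > 0, ∀ x, |u x| ≤ C * (1 + ‖x‖)
  limr : ∀ ε > 0, ∃ R₀, ∀ R ≥ R₀, ∫ x in Hs 1 ∩ ball 0 R, (α * x 0 - u x) ≤ ε * R ^ 4
  liml : ∀ ε > 0, ∃ R₀, ∀ R ≥ R₀, ∫ x in Hs (-1) ∩ ball 0 R, (β * x 0 - u x) ≤ ε * R ^ 4

/-- The gradients converge in the blow-down. -/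
def GBD (u : E → ℝ) (α β : ℝ) : Prop :=
  ∀ ε > 0, ∃ R₀, ∀ R ≥ R₀, (∫ x in Hs 1 ∩ ball 0 R, gsub α u x) +
    (∫ x in Hs (-1) ∩ ball 0 R, gsub β u x) ≤ ε * R ^ 3

/-- The weight `(r² - |x|²)₊`. -/
noncomputable def bw (r : ℝ) (x : E) : ℝ := max 0 (r ^ 2 - ‖x‖ ^ 2)

/-- The height functional of the frequency. -/
noncomputable def HH (v : E → ℝ) (κ r : ℝ) : ℝ :=
  ∫ x, (v x ^ 2 + κ * ‖x‖ ^ 2) * bw r x ^ 2

/-- The energy functional of the frequency. -/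
noncomputable def II (v : E → ℝ) (κ r : ℝ) : ℝ := ∫ x, (gsq v x + 3 * κ) * bw r x ^ 3

/-- The radial functional of the frequency. -/
noncomputable def JJ (v : E → ℝ) (κ r : ℝ) : ℝ :=
  ∫ x, (fderiv ℝ v x x ^ 2 + κ * ‖x‖ ^ 2) * bw r x ^ 2

/-- The first error term. -/
noncomputable def EE (v : E → ℝ) (r : ℝ) : ℝ := ∫ x, v x * lap v x * bw r x ^ 3

/-- The second error term (`G` a primitive: `∇G = Δv ∇v`). -/
noncomputable def E2 (G : E → ℝ) (r : ℝ) : ℝ :=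
  ∫ x, G x * (6 * bw r x ^ 3 - 12 * ‖x‖ ^ 2 * bw r x ^ 2)

end Pool.Agent.Helper35.HS3
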