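import Pool.Agent.Helper35.HS3.Defs

/-!
# Project HS3: basic calculus on `ℝ³`
-/

namespace Pool.Agent.Helper35.HS3

open MeasureTheory Set Filter Topology Metric
open scoped ContDiff

/-! ## Vectors -/

@[simp] theorem bv_apply (i j : Fin 3) : (bv i) j = if j = i then 1 else 0 := by
  simp [bv]

@[simp] theorem norm_bv (i : Fin 3) : ‖bv i‖ = 1 := by simp [bv]

theorem eq_sum_bv (x : E) : x = ∑ i, x i • bv i := by
  ext j
  simp [bv_apply]

theorem norm_sq_eq (x : E) : ‖x‖ ^ 2 = ∑ i, x i ^ 2 := by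
  rw [EuclideanSpace.norm_sq_eq]
  simp

theorem norm_sq_eq3 (x : E) : ‖x‖ ^ 2 = x 0 ^ 2 + x 1 ^ 2 + x 2 ^ 2 := by
  rw [norm_sq_eq, Fin.sum_univ_three]

theorem inner_bv (x : E) (i : Fin 3) : inner ℝ x (bv i) = x i := by
  simp [bv, EuclideanSpace.inner_single_right]

theorem abs_coord_le (x : E) (i : Fin 3) : |x i| ≤ ‖x‖ := by
  have := PiLp.norm_apply_le x i
  simpa using this

/-! ## Partial derivatives -/

theorem pd_def (i : Fin 3) (u : E → ℝ) (x : E) : pd i u x = fderiv ℝ u x (bv i) := rfl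

theorem fderiv_eq_sum (u : E → ℝ) (x v : E) : fderiv ℝ u x v = ∑ i, v i * pd i u x := by
  conv_lhs => rw [eq_sum_bv v]
  simp [pd]

theorem HasFDerivAt.pd {u : E → ℝ} {u' : E →L[ℝ] ℝ} {x : E} (h : HasFDerivAt u u' x)
    (i : Fin 3) : pd i u x = u' (bv i) := by
  rw [pd_def, h.fderiv]

theorem pd_congr {i : Fin 3} {u v : E → ℝ} {x : E} (h : u =ᶠ[𝓝 x] v) : pd i u x = pd i v x := by
  rw [pd_def, pd_def, h.fderiv_eq]

theorem lap_congr {u v : E → ℝ} {x : E} (h : u =ᶠ[𝓝 x] v) : lap u x = lap v x := by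
  unfold lap
  refine Finset.sum_congr rfl fun i _ => ?_
  refine pd_congr ?_
  filter_upwards [h.eventuallyEq_nhds] with y hy using pd_congr hy

@[simp] theorem pd_const (i : Fin 3) (c : ℝ) (x : E) : pd i (fun _ => c) x = 0 := by
  simp [pd_def]

theorem pd_add {i : Fin 3} {u v : E → ℝ} {x : E} (hu : DifferentiableAt ℝ u x)
    (hv : DifferentiableAt ℝ v x) : pd i (fun y => u y + v y) x = pd i u x + pd i v x := by
  rw [pd_def, fderiv_fun_add hu hv]; rfl

theorem pd_sub {i : Fin 3} {u v : E → ℝ} {x : E} (hu : DifferentiableAt ℝ u x)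
    (hv : DifferentiableAt ℝ v x) : pd i (fun y => u y - v y) x = pd i u x - pd i v x := by
  rw [pd_def, fderiv_fun_sub hu hv]; rfl

theorem pd_neg {i : Fin 3} {u : E → ℝ} {x : E} : pd i (fun y => - u y) x = - pd i u x := by
  rw [pd_def, fderiv_fun_neg]; rfl

theorem pd_const_mul {i : Fin 3} {u : E → ℝ} {x : E} (c : ℝ) (hu : DifferentiableAt ℝ u x) :
    pd i (fun y => c * u y) x = c * pd i u x := by
  rw [pd_def, fderiv_const_mul hu]; rfl

theorem pd_mul {i : Fin 3} {u v : E → ℝ} {x : E} (hu : DifferentiableAt ℝ u x)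
    (hv : DifferentiableAt ℝ v x) :
    pd i (fun y => u y * v y) x = u x * pd i v x + v x * pd i u x := by
  rw [pd_def, fderiv_fun_mul hu hv]
  simp [pd_def]

theorem pd_pow {i : Fin 3} {u : E → ℝ} {x : E} (n : ℕ) (hu : DifferentiableAt ℝ u x) :
    pd i (fun y => u y ^ n) x = n * u x ^ (n - 1) * pd i u x := by
  rw [pd_def, (hu.hasFDerivAt.pow n).fderiv]
  simp [pd_def]

/-- Chain rule with a function of one variable. -/
theorem pd_comp {i : Fin 3} {H : ℝ → ℝ} {H' : ℝ} {u : E → ℝ} {x : E} (hH : HasDerivAt H H' (u x))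
    (hu : DifferentiableAt ℝ u x) : pd i (fun y => H (u y)) x = H' * pd i u x := by
  have : HasFDerivAt (fun y => H (u y)) (H' • fderiv ℝ u x) x :=
    hH.comp_hasFDerivAt x hu.hasFDerivAt
  rw [HasFDerivAt.pd this]
  simp [pd_def]

theorem pd_coord (i j : Fin 3) (x : E) : pd i (fun y : E => y j) x = if j = i then 1 else 0 := by
  have h : HasFDerivAt (fun y : E => y j) (EuclideanSpace.proj j : E →L[ℝ] ℝ) x :=
    (EuclideanSpace.proj j : E →L[ℝ] ℝ).hasFDerivAt
  rw [HasFDerivAt.pd h]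
  simp

theorem pd_norm_sq (i : Fin 3) (x : E) : pd i (fun y : E => ‖y‖ ^ 2) x = 2 * x i := by
  rw [pd_def, (hasStrictFDerivAt_norm_sq x).hasFDerivAt.fderiv]
  simp [inner_bv]

theorem contDiff_coord (j : Fin 3) {n : WithTop ℕ∞} : ContDiff ℝ n (fun y : E => y j) :=
  (EuclideanSpace.proj j : E →L[ℝ] ℝ).contDiff

/-! ## Regularity -/

theorem contDiff_pd {i : Fin 3} {u : E → ℝ} {n : ℕ} (hu : ContDiff ℝ (n + 1) u) :
    ContDiff ℝ n (pd i u) := by
  have h1 : ContDiff ℝ n (fderiv ℝ u) := hu.fderiv_right (m := n) le_rfl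
  exact h1.clm_apply contDiff_const

theorem contDiff_one_pd {i : Fin 3} {u : E → ℝ} (hu : ContDiff ℝ 2 u) : ContDiff ℝ 1 (pd i u) := by
  have h1 : ContDiff ℝ 1 (fderiv ℝ u) := hu.fderiv_right (m := 1) (by norm_num)
  exact h1.clm_apply contDiff_const

theorem continuous_pd {i : Fin 3} {u : E → ℝ} (hu : ContDiff ℝ 1 u) : Continuous (pd i u) := by
  have h1 : Continuous (fderiv ℝ u) := hu.continuous_fderiv (by norm_num)
  exact h1.clm_apply continuous_const

theorem continuous_pd_pd {i j : Fin 3} {u : E → ℝ} (hu : ContDiff ℝ 2 u) :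
    Continuous (pd i (pd j u)) := continuous_pd (contDiff_one_pd hu)

theorem continuous_lap {u : E → ℝ} (hu : ContDiff ℝ 2 u) : Continuous (lap u) :=
  continuous_finsetSum _ fun _ _ => continuous_pd_pd hu

theorem continuous_gsq {u : E → ℝ} (hu : ContDiff ℝ 1 u) : Continuous (gsq u) :=
  continuous_finsetSum _ fun _ _ => (continuous_pd hu).pow 2

theorem continuous_gdot {u v : E → ℝ} (hu : ContDiff ℝ 1 u) (hv : ContDiff ℝ 1 v) :
    Continuous (gdot u v) :=
  continuous_finsetSum _ fun _ _ => (continuous_pd hu).mul (continuous_pd hv)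

theorem continuous_hsq {u : E → ℝ} (hu : ContDiff ℝ 2 u) : Continuous (hsq u) :=
  continuous_finsetSum _ fun _ _ => continuous_finsetSum _ fun _ _ =>
    (continuous_pd_pd hu).pow 2

theorem contDiff_gsq {u : E → ℝ} (hu : ContDiff ℝ 2 u) : ContDiff ℝ 1 (gsq u) := by
  unfold gsq
  exact ContDiff.sum fun i _ => (contDiff_one_pd hu).pow 2

theorem diff_of_one {u : E → ℝ} (hu : ContDiff ℝ 1 u) (x : E) : DifferentiableAt ℝ u x :=
  hu.contDiffAt.differentiableAt (by norm_num)

theorem diff_of_two {u : E → ℝ} (hu : ContDiff ℝ 2 u) (x : E) : DifferentiableAt ℝ u x :=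
  hu.contDiffAt.differentiableAt (by norm_num)

theorem diff_pd {u : E → ℝ} (hu : ContDiff ℝ 2 u) (i : Fin 3) (x : E) :
    DifferentiableAt ℝ (pd i u) x := diff_of_one (contDiff_one_pd hu) x

/-- Local version: if `u` is `C²` at `x`, then the partial derivatives are `C¹` at `x`. -/
theorem contDiffAt_pd {i : Fin 3} {u : E → ℝ} {x : E} (hu : ContDiffAt ℝ 2 u x) :
    ContDiffAt ℝ 1 (pd i u) x := by
  have h1 : ContDiffAt ℝ 1 (fderiv ℝ u) x := hu.fderiv_right (m := 1) (by norm_num)
  exact h1.clm_apply contDiffAt_const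

theorem diffAt_eventually {u : E → ℝ} {x : E} (hu : ContDiffAt ℝ 2 u x) :
    ∀ᶠ y in 𝓝 x, DifferentiableAt ℝ u y := by
  filter_upwards [hu.eventually (by simp)] with y hy
  exact hy.differentiableAt (by norm_num)

theorem pd_symm {u : E → ℝ} {x : E} (hu : ContDiffAt ℝ 2 u x) (i j : Fin 3) :
    pd i (pd j u) x = pd j (pd i u) x := by
  have h := hu.isSymmSndFDerivAt (by simp)
  have hd : DifferentiableAt ℝ (fderiv ℝ u) x :=
    (hu.fderiv_right (m := 1) (by norm_num)).differentiableAt (by norm_num)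
  have key : ∀ a b : Fin 3, pd a (pd b u) x = fderiv ℝ (fderiv ℝ u) x (bv a) (bv b) := by
    intro a b
    have h1 : HasFDerivAt (fun y => fderiv ℝ u y (bv b))
        ((fderiv ℝ (fderiv ℝ u) x).flip (bv b)) x := by
      have := hd.hasFDerivAt.clm_apply (hasFDerivAt_const (bv b) x)
      simpa using this
    have : pd b u = fun y => fderiv ℝ u y (bv b) := rfl
    rw [this, HasFDerivAt.pd h1]
    rfl
  rw [key, key]
  exact h (bv i) (bv j)

/-! ## Laplacian -/

theorem lap_add {u v : E → ℝ} {x : E} (hu : ContDiffAt ℝ 2 u x) (hv : ContDiffAt ℝ 2 v x) :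
    lap (fun y => u y + v y) x = lap u x + lap v x := by
  unfold lap
  rw [← Finset.sum_add_distrib]
  refine Finset.sum_congr rfl fun i _ => ?_
  rw [← pd_add ((contDiffAt_pd hu).differentiableAt (by norm_num))
    ((contDiffAt_pd hv).differentiableAt (by norm_num))]
  refine pd_congr ?_
  filter_upwards [diffAt_eventually hu, diffAt_eventually hv] with y h1 h2 using pd_add h1 h2

theorem lap_const_mul {u : E → ℝ} {x : E} (c : ℝ) (hu : ContDiffAt ℝ 2 u x) :
    lap (fun y => c * u y) x = c * lap u x := by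
  unfold lap
  rw [Finset.mul_sum]
  refine Finset.sum_congr rfl fun i _ => ?_
  rw [← pd_const_mul c ((contDiffAt_pd hu).differentiableAt (by norm_num))]
  refine pd_congr ?_
  filter_upwards [diffAt_eventually hu] with y h1 using pd_const_mul c h1

theorem lap_neg {u : E → ℝ} {x : E} : lap (fun y => - u y) x = - lap u x := by
  unfold lap
  rw [← Finset.sum_neg_distrib]
  refine Finset.sum_congr rfl fun i _ => ?_
  rw [← pd_neg]
  refine pd_congr ?_
  exact Eventually.of_forall fun y => pd_neg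

theorem lap_sub {u v : E → ℝ} {x : E} (hu : ContDiffAt ℝ 2 u x) (hv : ContDiffAt ℝ 2 v x) :
    lap (fun y => u y - v y) x = lap u x - lap v x := by
  have h := lap_add hu hv.neg
  have h2 : lap (-v) x = - lap v x := lap_neg
  have e : (fun y => u y + (fun z => - v z) y) = fun y => u y - v y := by
    funext y; simp [sub_eq_add_neg]
  have h3 : lap (fun z => - v z) x = - lap v x := lap_neg
  calc lap (fun y => u y - v y) x = lap (fun y => u y + (fun z => - v z) y) x := by rw [e]
    _ = lap u x + lap (fun z => - v z) x := lap_add hu hv.neg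
    _ = _ := by rw [h3]; ring

@[simp] theorem lap_const (c : ℝ) (x : E) : lap (fun _ => c) x = 0 := by
  unfold lap
  refine Finset.sum_eq_zero fun i _ => ?_
  have : pd i (fun _ : E => c) = fun _ => 0 := by funext y; simp
  rw [this]; simp

theorem lap_mul {u v : E → ℝ} {x : E} (hu : ContDiffAt ℝ 2 u x) (hv : ContDiffAt ℝ 2 v x) :
    lap (fun y => u y * v y) x = u x * lap v x + v x * lap u x + 2 * gdot u v x := by
  unfold lap gdot
  have h : ∀ i : Fin 3, pd i (pd i (fun y => u y * v y)) x =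
      u x * pd i (pd i v) x + v x * pd i (pd i u) x + 2 * (pd i u x * pd i v x) := by
    intro i
    have e : pd i (fun y => u y * v y) =ᶠ[𝓝 x] fun y => u y * pd i v y + v y * pd i u y := by
      filter_upwards [diffAt_eventually hu, diffAt_eventually hv] with y h1 h2 using pd_mul h1 h2
    rw [pd_congr e]
    have du := hu.differentiableAt (by norm_num : (2 : WithTop ℕ∞) ≠ 0)
    have dv := hv.differentiableAt (by norm_num : (2 : WithTop ℕ∞) ≠ 0)
    have dpu := (contDiffAt_pd (i := i) hu).differentiableAt (by norm_num : (1 : WithTop ℕ∞) ≠ 0)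
    have dpv := (contDiffAt_pd (i := i) hv).differentiableAt (by norm_num : (1 : WithTop ℕ∞) ≠ 0)
    have d1 : DifferentiableAt ℝ (fun y => u y * pd i v y) x := du.mul dpv
    have d2 : DifferentiableAt ℝ (fun y => v y * pd i u y) x := dv.mul dpu
    rw [pd_add d1 d2, pd_mul du dpv, pd_mul dv dpu]
    ring
  rw [Finset.sum_congr rfl fun i _ => h i, Finset.sum_add_distrib, Finset.sum_add_distrib,
    Finset.mul_sum, Finset.mul_sum, Finset.mul_sum]

/-- `Δ(H(u)) = H'(u) Δu + H''(u) |∇u|²`. -/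
theorem lap_comp {H H' : ℝ → ℝ} {H'' : ℝ} {u : E → ℝ} {x : E}
    (hH : ∀ᶠ t in 𝓝 (u x), HasDerivAt H (H' t) t) (hH' : HasDerivAt H' H'' (u x))
    (hu : ContDiffAt ℝ 2 u x) :
    lap (fun y => H (u y)) x = H' (u x) * lap u x + H'' * gsq u x := by
  unfold lap gsq
  have hc : ContinuousAt u x := hu.continuousAt
  have du := hu.differentiableAt (by norm_num : (2 : WithTop ℕ∞) ≠ 0)
  have h : ∀ i : Fin 3, pd i (pd i (fun y => H (u y))) x =
      H' (u x) * pd i (pd i u) x + H'' * pd i u x ^ 2 := by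
    intro i
    have e : pd i (fun y => H (u y)) =ᶠ[𝓝 x] fun y => H' (u y) * pd i u y := by
      filter_upwards [diffAt_eventually hu, hc.eventually hH] with y h1 h2 using pd_comp h2 h1
    rw [pd_congr e]
    have dpu := (contDiffAt_pd (i := i) hu).differentiableAt (by norm_num : (1 : WithTop ℕ∞) ≠ 0)
    have d1 : DifferentiableAt ℝ (fun y => H' (u y)) x :=
      (hH'.comp_hasFDerivAt x du.hasFDerivAt).differentiableAt
    rw [pd_mul d1 dpu, pd_comp hH' du]
    ring
  rw [Finset.sum_congr rfl fun i _ => h i, Finset.sum_add_distrib, Finset.mul_sum, Finset.mul_sum]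

/-! ## Scaling and translation -/

theorem pd_scale (i : Fin 3) {u : E → ℝ} (hu : ContDiff ℝ 1 u) (x : E) (r : ℝ) (y : E) :
    pd i (fun y => u (x + r • y)) y = r * pd i u (x + r • y) := by
  have h1 : HasFDerivAt (fun y : E => x + r • y) (r • ContinuousLinearMap.id ℝ E) y := by
    simpa using ((hasFDerivAt_id y).const_smul r).const_add x
  have h2 := (diff_of_one hu (x + r • y)).hasFDerivAt.comp y h1
  have h3 : HasFDerivAt (fun y => u (x + r • y))
    ((fderiv ℝ u (x + r • y)).comp (r • ContinuousLinearMap.id ℝ E)) y := h2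
  rw [HasFDerivAt.pd h3]
  simp [pd_def]

theorem contDiff_scale {n : WithTop ℕ∞} {u : E → ℝ} (hu : ContDiff ℝ n u) (x : E) (r : ℝ) :
    ContDiff ℝ n (fun y => u (x + r • y)) :=
  hu.comp (contDiff_const.add (contDiff_id.const_smul r))

theorem lap_scale {u : E → ℝ} (hu : ContDiff ℝ 2 u) (x : E) (r : ℝ) (y : E) :
    lap (fun y => u (x + r • y)) y = r ^ 2 * lap u (x + r • y) := by
  unfold lap
  rw [Finset.mul_sum]
  refine Finset.sum_congr rfl fun i _ => ?_
  have e : pd i (fun y => u (x + r • y)) = fun y => r * (pd i u) (x + r • y) := by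
    funext z
    exact pd_scale i (hu.of_le (by norm_num)) x r z
  rw [e, pd_const_mul r (diff_of_one (contDiff_scale (contDiff_one_pd hu) x r) y),
    pd_scale i (contDiff_one_pd hu) x r y]
  ring

/-! ## Integration by parts -/

theorem hasCompactSupport_pd {φ : E → ℝ} (i : Fin 3) (h : HasCompactSupport φ) :
    HasCompactSupport (pd i φ) := by
  have h1 : HasCompactSupport (fderiv ℝ φ) := h.fderiv ℝ
  exact h1.comp_left (g := fun L : E →L[ℝ] ℝ => L (bv i)) (by simp)

theorem integral_pd {φ : E → ℝ} (i : Fin 3) (h1 : ContDiff ℝ 1 φ) (h2 : HasCompactSupport φ) :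
    ∫ x, pd i φ x = 0 := by
  have h0 : Integrable (fun x => fderiv ℝ φ x (bv i)) :=
    (continuous_pd (i := i) h1).integrable_of_hasCompactSupport (hasCompactSupport_pd i h2)
  have h := integral_mul_fderiv_eq_neg_fderiv_mul_of_integrable (μ := (volume : Measure E))
    (f := fun _ : E => (1 : ℝ)) (g := φ) (v := bv i) (by simp)
    (by simpa using h0)
    (by simpa using h1.continuous.integrable_of_hasCompactSupport h2)
    (fun x _ => by fun_prop) (fun x _ => diff_of_one h1 x)
  have e : (fun x => pd i φ x) = fun x => fderiv ℝ φ x (bv i) := rfl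
  rw [e]
  simpa using h

/-- Integration by parts: `∫ φ ∂_i v = - ∫ v ∂_i φ`. -/
theorem integral_mul_pd {φ v : E → ℝ} (i : Fin 3) (hφ : ContDiff ℝ 1 φ) (hc : HasCompactSupport φ)
    (hv : ContDiff ℝ 1 v) : ∫ x, φ x * pd i v x = - ∫ x, v x * pd i φ x := by
  have h := integral_pd i (hφ.mul hv) (hc.mul_right (f' := v))
  have e : ∀ x, pd i (fun y => φ y * v y) x = φ x * pd i v x + v x * pd i φ x := fun x =>
    pd_mul (diff_of_one hφ x) (diff_of_one hv x)
  have h' : ∫ x, (φ x * pd i v x + v x * pd i φ x) = 0 := by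
    rw [← h]; exact integral_congr_ae (Eventually.of_forall fun x => (e x).symm)
  rw [integral_add] at h'
  · linarith
  · exact (hφ.continuous.mul (continuous_pd hv)).integrable_of_hasCompactSupport hc.mul_right
  · exact (hv.continuous.mul (continuous_pd hφ)).integrable_of_hasCompactSupport
      (hasCompactSupport_pd i hc).mul_left

/-- Green: `∫ φ Δv = - ∫ ∇φ · ∇v` for `φ ∈ C¹_c`, `v ∈ C²`. -/
theorem green1 {φ v : E → ℝ} (hφ : ContDiff ℝ 1 φ) (hc : HasCompactSupport φ)
    (hv : ContDiff ℝ 2 v) : ∫ x, φ x * lap v x = - ∫ x, gdot φ v x := by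
  unfold lap gdot
  have h1 : ∀ i : Fin 3, Integrable (fun x => φ x * pd i (pd i v) x) := fun i =>
    (hφ.continuous.mul (continuous_pd_pd hv)).integrable_of_hasCompactSupport hc.mul_right
  have h2 : ∀ i : Fin 3, Integrable (fun x => pd i φ x * pd i v x) := fun i =>
    ((continuous_pd hφ).mul (continuous_pd (hv.of_le (by norm_num)))).integrable_of_hasCompactSupport
      (hasCompactSupport_pd i hc).mul_right
  simp_rw [Finset.mul_sum]
  rw [integral_finsetSum _ fun i _ => h1 i, integral_finsetSum _ fun i _ => h2 i,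
    ← Finset.sum_neg_distrib]
  refine Finset.sum_congr rfl fun i _ => ?_
  rw [integral_mul_pd i hφ hc (contDiff_one_pd hv)]
  congr 1
  refine integral_congr_ae (Eventually.of_forall fun x => ?_)
  simp only
  ring

/-- Green: `∫ φ Δv = ∫ v Δφ` for `φ ∈ C²_c`, `v ∈ C²`. -/
theorem green2 {φ v : E → ℝ} (hφ : ContDiff ℝ 2 φ) (hc : HasCompactSupport φ)
    (hv : ContDiff ℝ 2 v) : ∫ x, φ x * lap v x = ∫ x, v x * lap φ x := by
  rw [green1 (hφ.of_le (by norm_num)) hc hv]
  have h1 : ∀ i : Fin 3, Integrable (fun x => pd i φ x * pd i v x) := fun i =>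
    ((continuous_pd (hφ.of_le (by norm_num))).mul
      (continuous_pd (hv.of_le (by norm_num)))).integrable_of_hasCompactSupport
      (hasCompactSupport_pd i hc).mul_right
  have h2 : ∀ i : Fin 3, Integrable (fun x => v x * pd i (pd i φ) x) := fun i =>
    (hv.continuous.mul (continuous_pd_pd hφ)).integrable_of_hasCompactSupport
      (hasCompactSupport_pd i (hasCompactSupport_pd i hc)).mul_left
  unfold lap gdot
  simp_rw [Finset.mul_sum]
  rw [integral_finsetSum _ fun i _ => h1 i, integral_finsetSum _ fun i _ => h2 i,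
    ← Finset.sum_neg_distrib]
  refine Finset.sum_congr rfl fun i _ => ?_
  rw [integral_mul_pd i (contDiff_one_pd hφ) (hasCompactSupport_pd i hc) (hv.of_le (by norm_num)),
    neg_neg]

/-! ## The gradient as a norm -/

theorem gsq_nonneg (u : E → ℝ) (x : E) : 0 ≤ gsq u x := Finset.sum_nonneg fun _ _ => sq_nonneg _

theorem norm_fderiv_sq_le (u : E → ℝ) (x : E) : ‖fderiv ℝ u x‖ ^ 2 ≤ gsq u x := by
  have h : ‖fderiv ℝ u x‖ ≤ √(gsq u x) := by
    refine ContinuousLinearMap.opNorm_le_bound _ (Real.sqrt_nonneg _) fun v => ?_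
    rw [fderiv_eq_sum, Real.norm_eq_abs]
    have h1 := Finset.sum_mul_sq_le_sq_mul_sq Finset.univ (fun i => v i) (fun i => pd i u x)
    rw [← norm_sq_eq] at h1
    have h2 : (∑ i, v i * pd i u x) ^ 2 ≤ (√(gsq u x) * ‖v‖) ^ 2 := by
      rw [mul_pow, Real.sq_sqrt (gsq_nonneg u x)]
      calc _ ≤ _ := h1
        _ = _ := by unfold gsq; ring
    exact abs_le_of_sq_le_sq h2 (by positivity)
  calc ‖fderiv ℝ u x‖ ^ 2 ≤ (√(gsq u x)) ^ 2 := by gcongr
    _ = gsq u x := Real.sq_sqrt (gsq_nonneg u x)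

/-- A bound for the gradient gives a Lipschitz constant. -/
theorem lipschitz_of_gsq {u : E → ℝ} {L : ℝ} (hu : ContDiff ℝ 1 u) (hL : 0 ≤ L)
    (h : ∀ x, gsq u x ≤ L ^ 2) (x y : E) : |u x - u y| ≤ L * ‖x - y‖ := by
  have hb : ∀ z ∈ (univ : Set E), ‖fderiv ℝ u z‖ ≤ L := fun z _ => by
    have h1 := (norm_fderiv_sq_le u z).trans (h z)
    exact le_of_sq_le_sq h1 hL
  have := Convex.norm_image_sub_le_of_norm_fderiv_le (𝕜 := ℝ) (f := u) (s := univ)
    (fun z _ => diff_of_one hu z) hb convex_univ (mem_univ y) (mem_univ x)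
  simpa [Real.norm_eq_abs] using this

/-! ## The half-spaces -/

theorem isOpen_Hs (τ : ℝ) : IsOpen (Hs τ) := by
  have : Continuous fun x : E => τ * x 0 := continuous_const.mul (contDiff_coord 0 (n := 0)).continuous
  exact isOpen_lt continuous_const this

theorem measurableSet_Hs (τ : ℝ) : MeasurableSet (Hs τ) := (isOpen_Hs τ).measurableSet

/-! ## The weights -/

theorem kk_nonneg (y : E) : 0 ≤ kk y := le_max_left _ _

theorem kk_le_one (y : E) : kk y ≤ 1 := by
  unfold kk
  exact max_le (by norm_num) (by nlinarith [sq_nonneg ‖y‖])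

theorem kk_eq_zero {y : E} (hy : 1 ≤ ‖y‖) : kk y = 0 := by
  unfold kk
  exact max_eq_left (by nlinarith)

theorem kk_ge {y : E} (hy : ‖y‖ ≤ 1 / 2) : 3 / 4 ≤ kk y := by
  unfold kk
  refine le_max_of_le_right ?_
  have : ‖y‖ ^ 2 ≤ (1 / 2) ^ 2 := by gcongr
  linarith

theorem continuous_kk : Continuous kk := by
  unfold kk; fun_prop

theorem hasCompactSupport_kk : HasCompactSupport kk := by
  refine HasCompactSupport.intro (isCompact_closedBall (0 : E) 1) fun x hx => ?_
  apply kk_eq_zero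
  have : ¬ ‖x‖ ≤ 1 := by simpa using hx
  exact (not_le.1 this).le

theorem integrable_kk : Integrable kk :=
  continuous_kk.integrable_of_hasCompactSupport hasCompactSupport_kk

theorem integrable_kk_mul {v : E → ℝ} (hv : Continuous v) : Integrable fun y => kk y * v y :=
  (continuous_kk.mul hv).integrable_of_hasCompactSupport hasCompactSupport_kk.mul_right

theorem hasCompactSupport_kk_sq : HasCompactSupport (fun y => kk y ^ 2) :=
  hasCompactSupport_kk.comp_left (g := fun t : ℝ => t ^ 2) (by norm_num)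

theorem integrable_kk_sq_mul {v : E → ℝ} (hv : Continuous v) :
    Integrable fun y => kk y ^ 2 * v y :=
  ((continuous_kk.pow 2).mul hv).integrable_of_hasCompactSupport
    (hasCompactSupport_kk_sq.mul_right (f' := v))

theorem k0_pos : 0 < k0 := by
  unfold k0
  have h : kk 0 ≠ 0 := by
    have : 3 / 4 ≤ kk 0 := kk_ge (by simp)
    positivity
  exact continuous_kk.integral_pos_of_hasCompactSupport_nonneg_nonzero hasCompactSupport_kk
    (fun y => kk_nonneg y) h

theorem k1_pos : 0 < k1 := by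
  unfold k1
  have h : (fun y => kk y ^ 2) 0 ≠ 0 := by
    have : 3 / 4 ≤ kk 0 := kk_ge (by simp)
    have h2 : 0 < kk 0 := by linarith
    simp only
    positivity
  have h3 : Continuous (fun y => kk y ^ 2) := continuous_kk.pow 2
  exact h3.integral_pos_of_hasCompactSupport_nonneg_nonzero hasCompactSupport_kk_sq
    (fun y => sq_nonneg _) h

/-- `max 0 (c - |x|²)` to the power `n + 2` is `C¹` with gradient
`- 2 (n + 2) x max 0 (c - |x|²) ^ (n + 1)`. -/
theorem hasFDerivAt_maxpow (c : ℝ) (n : ℕ) (x : E) :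
    HasFDerivAt (fun y : E => max 0 (c - ‖y‖ ^ 2) ^ (n + 2))
      ((-(2 * (n + 2) * max 0 (c - ‖x‖ ^ 2) ^ (n + 1))) • (innerSL ℝ x)) x := by
  have h1 : ∀ t : ℝ, HasDerivAt (fun s : ℝ => max 0 s ^ (n + 2)) ((n + 2) * max 0 t ^ (n + 1)) t := by
    intro t
    rcases lt_trichotomy t 0 with ht | ht | ht
    · have e : (fun s : ℝ => max 0 s ^ (n + 2)) =ᶠ[𝓝 t] fun _ => 0 := by
        filter_upwards [Iio_mem_nhds ht] with s hs
        rw [max_eq_left (le_of_lt hs)]; simp
      rw [max_eq_left ht.le]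
      simpa using (hasDerivAt_const t (0 : ℝ)).congr_of_eventuallyEq e
    · subst ht
      simp only [max_self, ne_eq, Nat.add_eq_zero_iff, one_ne_zero, and_false, not_false_eq_true,
        zero_pow, mul_zero]
      rw [hasDerivAt_iff_isLittleO_nhds_zero]
      simp only [zero_add, max_self, ne_eq, Nat.add_eq_zero_iff, OfNat.ofNat_ne_zero, and_false,
        not_false_eq_true, zero_pow, sub_zero, smul_zero]
      have : (fun h : ℝ => max 0 h ^ (n + 2)) =O[𝓝 0] fun h : ℝ => h ^ (n + 2) := by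
        refine Asymptotics.IsBigO.of_bound 1 (Eventually.of_forall fun h => ?_)
        rw [one_mul, norm_pow, norm_pow]
        refine pow_le_pow_left₀ (norm_nonneg _) ?_ _
        rw [Real.norm_eq_abs, Real.norm_eq_abs, abs_of_nonneg (le_max_left 0 h)]
        exact max_le (abs_nonneg h) (le_abs_self h)
      refine this.trans_isLittleO ?_
      have h2 : (fun h : ℝ => h ^ (n + 2)) = fun h : ℝ => h ^ (n + 1) * h := by
        funext h; ring
      rw [h2]
      have h3 : (fun h : ℝ => h ^ (n + 1)) =o[𝓝 0] fun _ : ℝ => (1 : ℝ) := by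
        rw [Asymptotics.isLittleO_one_iff]
        have : Continuous fun h : ℝ => h ^ (n + 1) := by fun_prop
        simpa using this.tendsto 0
      simpa using h3.mul_isBigO (Asymptotics.isBigO_refl (fun h : ℝ => h) (𝓝 0))
    · have e : (fun s : ℝ => max 0 s ^ (n + 2)) =ᶠ[𝓝 t] fun s => s ^ (n + 2) := by
        filter_upwards [Ioi_mem_nhds ht] with s hs
        rw [max_eq_right (le_of_lt hs)]
      rw [max_eq_right ht.le]
      have := (hasDerivAt_pow (n + 2) t).congr_of_eventuallyEq e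
      have e2 : ((n : ℝ) + 2) * t ^ (n + 1) = ((n + 2 : ℕ) : ℝ) * t ^ (n + 2 - 1) := by
        have : n + 2 - 1 = n + 1 := rfl
        rw [this]; push_cast; ring
      rw [e2]
      exact this
  have h2 : HasFDerivAt (fun y : E => c - ‖y‖ ^ 2) (-(2 • innerSL ℝ x)) x := by
    have := (hasStrictFDerivAt_norm_sq x).hasFDerivAt
    simpa using this.const_sub c
  have h3 := (h1 (c - ‖x‖ ^ 2)).comp_hasFDerivAt x h2
  refine h3.congr_fderiv ?_
  ext v
  simp
  ring

theorem contDiff_maxpow (c : ℝ) (n : ℕ) :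
    ContDiff ℝ 1 (fun y : E => max 0 (c - ‖y‖ ^ 2) ^ (n + 2)) := by
  rw [contDiff_one_iff_hasFDerivAt]
  refine ⟨_, ?_, hasFDerivAt_maxpow c n⟩
  fun_prop

theorem pd_maxpow (c : ℝ) (n : ℕ) (i : Fin 3) (x : E) :
    pd i (fun y : E => max 0 (c - ‖y‖ ^ 2) ^ (n + 2)) x =
      -(2 * (n + 2) * x i * max 0 (c - ‖x‖ ^ 2) ^ (n + 1)) := by
  rw [HasFDerivAt.pd (hasFDerivAt_maxpow c n x)]
  simp [inner_bv]
  ring

theorem contDiff_kk_sq : ContDiff ℝ 1 (fun y => kk y ^ 2) := contDiff_maxpow 1 0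

theorem pd_kk_sq (i : Fin 3) (x : E) : pd i (fun y => kk y ^ 2) x = -(4 * x i * kk x) := by
  have := pd_maxpow 1 0 i x
  simp only [Nat.cast_zero, zero_add, pow_one] at this
  unfold kk
  rw [this]; ring

end Pool.Agent.Helper35.HS3
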