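import Pool.Agent.Helper35.HS3.Basic

/-!
# Project HS3: measure theory on `ℝ³` (scaling, balls, slabs, reflection, primitive)
-/

namespace Pool.Agent.Helper35.HS3

open MeasureTheory Set Filter Topology Metric
open scoped ContDiff ENNReal

/-! ## Scaling -/

theorem integral_scale (φ : E → ℝ) (x : E) {r : ℝ} (hr : 0 < r) :
    ∫ y, φ (x + r • y) = (r ^ 3)⁻¹ * ∫ y, φ y := by
  have h := Measure.integral_comp_smul (μ := (volume : Measure E)) (fun y => φ (x + y)) r
  rw [h, integral_add_left_eq_self φ x]
  have e : Module.finrank ℝ E = 3 := by simp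
  rw [e, smul_eq_mul, abs_of_pos (by positivity)]

/-- Volume of the unit ball. -/
noncomputable def v1 : ℝ := volume.real (ball (0 : E) 1)

theorem v1_pos : 0 < v1 := by
  unfold v1 Measure.real
  exact ENNReal.toReal_pos (measure_ball_pos volume 0 one_pos).ne' measure_ball_lt_top.ne

theorem vol_ball (x : E) {r : ℝ} (hr : 0 ≤ r) : volume.real (ball x r) = v1 * r ^ 3 := by
  unfold v1 Measure.real
  have h := Measure.addHaar_ball (volume : Measure E) x hr
  rw [h, ENNReal.toReal_mul, ENNReal.toReal_ofReal (by positivity)]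
  have e : Module.finrank ℝ E = 3 := by simp
  rw [e]; ring

/-- Scaling of an integral over a ball. -/
theorem integral_ball_scale (φ : E → ℝ) (x : E) {r : ℝ} (hr : 0 < r) (s : ℝ) :
    ∫ y in ball (0 : E) s, φ (x + r • y) = (r ^ 3)⁻¹ * ∫ y in ball x (r * s), φ y := by
  rw [← integral_indicator measurableSet_ball, ← integral_indicator measurableSet_ball,
    ← integral_scale _ x hr]
  refine integral_congr_ae (Eventually.of_forall fun y => ?_)
  simp only [indicator, mem_ball, dist_zero_right]
  have e : dist (x + r • y) x = r * ‖y‖ := by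
    rw [dist_eq_norm]; simp [norm_smul, abs_of_pos hr]
  rw [e]
  have : (r * ‖y‖ < r * s) ↔ ‖y‖ < s := mul_lt_mul_iff_right₀ hr
  simp only [this]

/-- Weighted averages of functions `≥ 0` bound integrals over half of the ball. -/
theorem kk_lower {φ : E → ℝ} (hφ : Continuous φ) (x : E) {r : ℝ} (hr : 0 < r)
    (h0 : ∀ y ∈ ball x r, 0 ≤ φ y) :
    3 / 4 * (r ^ 3)⁻¹ * ∫ y in ball x (r / 2), φ y ≤ ∫ y, kk y * φ (x + r • y) := by
  have h1 := integral_ball_scale φ x hr (1 / 2)
  have e : r * (1 / 2) = r / 2 := by ring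
  rw [e] at h1
  rw [mul_assoc, ← h1, ← integral_const_mul, ← integral_indicator measurableSet_ball]
  have hc : Continuous fun y : E => φ (x + r • y) := by fun_prop
  refine integral_mono ?_ (integrable_kk_mul hc) fun y => ?_
  · rw [integrable_indicator_iff measurableSet_ball]
    exact ((continuous_const.mul hc).continuousOn.integrableOn_compact
      (isCompact_closedBall (0 : E) (1 / 2))).mono_set ball_subset_closedBall
  · by_cases hy : y ∈ ball (0 : E) (1 / 2)
    · rw [indicator_of_mem hy]
      have hy' : ‖y‖ < 1 / 2 := by simpa using hy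
      have : 0 ≤ φ (x + r • y) := h0 _ (by
        rw [mem_ball, dist_eq_norm]
        simp only [add_sub_cancel_left, norm_smul, Real.norm_eq_abs, abs_of_pos hr]
        nlinarith)
      exact mul_le_mul_of_nonneg_right (kk_ge hy'.le) this
    · rw [indicator_of_notMem hy]
      by_cases hy1 : y ∈ ball (0 : E) 1
      · have hy' : ‖y‖ < 1 := by simpa using hy1
        have : 0 ≤ φ (x + r • y) := h0 _ (by
          rw [mem_ball, dist_eq_norm]
          simp only [add_sub_cancel_left, norm_smul, Real.norm_eq_abs, abs_of_pos hr]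
          nlinarith)
        exact mul_nonneg (kk_nonneg y) this
      · have hy' : 1 ≤ ‖y‖ := by simpa using hy1
        rw [kk_eq_zero hy']; simp

/-- Weighted averages of functions `≥ 0` are bounded by integrals over the ball. -/
theorem kk_upper {φ : E → ℝ} (hφ : Continuous φ) (x : E) {r : ℝ} (hr : 0 < r)
    (h0 : ∀ y ∈ ball x r, 0 ≤ φ y) :
    ∫ y, kk y * φ (x + r • y) ≤ (r ^ 3)⁻¹ * ∫ y in ball x r, φ y := by
  have h1 := integral_ball_scale φ x hr 1
  rw [mul_one] at h1
  rw [← h1, ← integral_indicator measurableSet_ball]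
  have hc : Continuous fun y : E => φ (x + r • y) := by fun_prop
  refine integral_mono (integrable_kk_mul hc) ?_ fun y => ?_
  · rw [integrable_indicator_iff measurableSet_ball]
    exact (hc.continuousOn.integrableOn_compact
      (isCompact_closedBall (0 : E) 1)).mono_set ball_subset_closedBall
  · by_cases hy : y ∈ ball (0 : E) 1
    · rw [indicator_of_mem hy]
      have hy' : ‖y‖ < 1 := by simpa using hy
      have : 0 ≤ φ (x + r • y) := h0 _ (by
        rw [mem_ball, dist_eq_norm]
        simp only [add_sub_cancel_left, norm_smul, Real.norm_eq_abs, abs_of_pos hr]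
        nlinarith)
      exact mul_le_of_le_one_left this (kk_le_one y)
    · rw [indicator_of_notMem hy]
      have hy' : 1 ≤ ‖y‖ := by simpa using hy
      simp only [kk_eq_zero hy', zero_mul, le_refl]

/-! ## Integrals over parts of balls -/

theorem integrableOn_ball {φ : E → ℝ} (hφ : Continuous φ) (x : E) (r : ℝ) :
    IntegrableOn φ (ball x r) :=
  (hφ.continuousOn.integrableOn_compact (isCompact_closedBall x r)).mono_set ball_subset_closedBall

theorem integrableOn_Hs_ball {φ : E → ℝ} (hφ : Continuous φ) (τ : ℝ) (r : ℝ) :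
    IntegrableOn φ (Hs τ ∩ ball 0 r) :=
  (integrableOn_ball hφ 0 r).mono_set inter_subset_right

/-- The plane `x₀ = 0` is a null set. -/
theorem volume_plane : volume {x : E | x 0 = 0} = 0 := by
  have h := Measure.addHaar_affineSubspace (volume : Measure E)
    (LinearMap.ker (EuclideanSpace.proj (0 : Fin 3) : E →L[ℝ] ℝ).toLinearMap).toAffineSubspace
  have e : ((LinearMap.ker (EuclideanSpace.proj (0 : Fin 3) : E →L[ℝ] ℝ).toLinearMap).toAffineSubspace
      : Set E) = {x : E | x 0 = 0} := by
    ext x; simp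
  rw [e] at h
  refine h fun htop => ?_
  have h1 : (bv 0 : E) ∈ ((LinearMap.ker (EuclideanSpace.proj (0 : Fin 3) :
      E →L[ℝ] ℝ).toLinearMap).toAffineSubspace : Set E) := by
    rw [htop]; trivial
  rw [e] at h1
  simp at h1

/-- Splitting of an integral along the plane `x₀ = 0`. -/
theorem integral_split {φ : E → ℝ} (hφ : Integrable φ) :
    ∫ x, φ x = (∫ x in Hs 1, φ x) + ∫ x in Hs (-1), φ x := by
  have hd : Disjoint (Hs 1) (Hs (-1)) := by
    rw [Set.disjoint_left]
    intro x hx hx'
    simp only [Hs, mem_ofPred_eq] at hx hx'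
    linarith
  rw [← setIntegral_union hd (measurableSet_Hs _) hφ.integrableOn hφ.integrableOn]
  have : (Hs 1 ∪ Hs (-1) : Set E) =ᵐ[volume] (univ : Set E) := by
    rw [ae_eq_univ]
    refine measure_mono_null ?_ volume_plane
    intro x hx
    simp only [Hs, mem_compl_iff, mem_union, mem_ofPred_eq, not_or, not_lt] at hx
    simp only [mem_ofPred_eq]
    linarith [hx.1, hx.2]
  rw [setIntegral_congr_set this, setIntegral_univ]

/-- The part of the ball `|x| < R` with `0 < τ x₀ < η` has volume at most `4 η R²`. -/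
theorem vol_slab {τ R η : ℝ} (hτ : τ = 1 ∨ τ = -1) (hR : 0 ≤ R) (hη : 0 ≤ η) :
    volume.real {x : E | ‖x‖ < R ∧ 0 < τ * x 0 ∧ τ * x 0 < η} ≤ 4 * η * R ^ 2 := by
  set lo : Fin 3 → ℝ := ![min 0 (τ * η), -R, -R] with hlo
  set hi : Fin 3 → ℝ := ![max 0 (τ * η), R, R] with hhi
  have hvol : volume ((MeasurableEquiv.toLp 2 (Fin 3 → ℝ)).symm ⁻¹' (Icc lo hi))
      = ENNReal.ofReal (4 * η * R ^ 2) := by
    rw [(EuclideanSpace.volume_preserving_symm_measurableEquiv_toLp (Fin 3)).measure_preimage
      measurableSet_Icc.nullMeasurableSet, Real.volume_Icc_pi, Fin.prod_univ_three]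
    simp only [hlo, hhi, Matrix.cons_val_zero, Matrix.cons_val_one, Matrix.cons_val]
    have h1 : max 0 (τ * η) - min 0 (τ * η) = η := by
      rcases hτ with rfl | rfl
      · rw [max_eq_right (by linarith), min_eq_left (by linarith)]; ring
      · rw [max_eq_left (by linarith), min_eq_right (by linarith)]; ring
    rw [h1, ← ENNReal.ofReal_mul hη, ← ENNReal.ofReal_mul (by nlinarith)]
    congr 1; ring
  have hsub : {x : E | ‖x‖ < R ∧ 0 < τ * x 0 ∧ τ * x 0 < η} ⊆
      (MeasurableEquiv.toLp 2 (Fin 3 → ℝ)).symm ⁻¹' (Icc lo hi) := by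
    rintro x ⟨h1, h2, h3⟩
    have c0 : min 0 (τ * η) ≤ x 0 ∧ x 0 ≤ max 0 (τ * η) := by
      rcases hτ with rfl | rfl
      · exact ⟨(min_le_left _ _).trans (by linarith), le_trans (by linarith) (le_max_right _ _)⟩
      · exact ⟨(min_le_right _ _).trans (by linarith), le_trans (by linarith) (le_max_left _ _)⟩
    have c1 := abs_le.1 ((abs_coord_le x 1).trans h1.le)
    have c2 := abs_le.1 ((abs_coord_le x 2).trans h1.le)
    rw [mem_preimage, mem_Icc, Pi.le_def, Pi.le_def]
    constructor
    · intro i
      fin_cases i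
      · exact c0.1
      · exact c1.1
      · exact c2.1
    · intro i
      fin_cases i
      · exact c0.2
      · exact c1.2
      · exact c2.2
  unfold Measure.real
  refine ENNReal.toReal_le_of_le_ofReal (by positivity) ?_
  rw [← hvol]
  exact measure_mono hsub

/-! ## The reflection in the plane `x₀ = 0` -/

/-- The reflection in the plane `x₀ = 0`. -/
noncomputable def refl (x : E) : E := x - (2 * x 0) • bv 0

@[simp] theorem refl_zero (x : E) : (refl x) 0 = - x 0 := by
  simp [refl, bv_apply]; ring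

theorem refl_apply_ne (x : E) {i : Fin 3} (hi : i ≠ 0) : (refl x) i = x i := by
  simp [refl, bv_apply, hi]

@[simp] theorem refl_one (x : E) : (refl x) 1 = x 1 := refl_apply_ne x (by decide)
@[simp] theorem refl_two (x : E) : (refl x) 2 = x 2 := refl_apply_ne x (by decide)

@[simp] theorem refl_refl (x : E) : refl (refl x) = x := by
  ext i
  fin_cases i <;> simp

@[simp] theorem norm_refl (x : E) : ‖refl x‖ = ‖x‖ := by
  have : ‖refl x‖ ^ 2 = ‖x‖ ^ 2 := by rw [norm_sq_eq3, norm_sq_eq3]; simp
  exact (sq_eq_sq₀ (norm_nonneg _) (norm_nonneg _)).1 this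

/-- The reflection as a linear isometry. -/
noncomputable def reflL : E ≃ₗᵢ[ℝ] E where
  toFun := refl
  invFun := refl
  left_inv := refl_refl
  right_inv := refl_refl
  map_add' x y := by ext i; fin_cases i <;> simp [refl, bv_apply] <;> ring
  map_smul' c x := by ext i; fin_cases i <;> simp [refl, bv_apply] <;> ring
  norm_map' := norm_refl

@[simp] theorem reflL_apply (x : E) : reflL x = refl x := rfl

theorem measurePreserving_refl : MeasurePreserving refl (volume : Measure E) volume :=
  reflL.measurePreserving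

theorem continuous_refl : Continuous refl := reflL.continuous

theorem integral_refl (φ : E → ℝ) : ∫ x, φ (refl x) = ∫ x, φ x :=
  measurePreserving_refl.integral_comp reflL.toHomeomorph.measurableEmbedding φ

theorem integral_refl_Hs (τ : ℝ) (φ : E → ℝ) :
    ∫ x in Hs τ, φ (refl x) = ∫ x in Hs (-τ), φ x := by
  rw [← integral_indicator (measurableSet_Hs _), ← integral_indicator (measurableSet_Hs _),
    ← integral_refl ((Hs (-τ)).indicator φ)]
  refine integral_congr_ae (Eventually.of_forall fun x => ?_)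
  simp only [indicator, Hs, mem_ofPred_eq, refl_zero, mul_neg, neg_mul, neg_neg]

theorem kk_refl (x : E) : kk (refl x) = kk x := by simp [kk]

/-! ## The primitive -/

theorem hasDerivAt_Fp {f : ℝ → ℝ} (hf : Continuous f) (a t : ℝ) :
    HasDerivAt (Fp f a) (f t) t :=
  intervalIntegral.integral_hasDerivAt_right (hf.intervalIntegrable _ _)
    (hf.stronglyMeasurableAtFilter _ _) hf.continuousAt

theorem Nl.cont {f : ℝ → ℝ} {a A K : ℝ} (h : Nl f a A K) : Continuous f := h.smooth.continuous

theorem Nl.Fp_mono {f : ℝ → ℝ} {a A K : ℝ} (h : Nl f a A K) : Monotone (Fp f a) := by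
  refine monotone_of_deriv_nonneg (fun t => (hasDerivAt_Fp h.cont a t).differentiableAt) fun t => ?_
  rw [(hasDerivAt_Fp h.cont a t).deriv]
  exact h.nonneg t

theorem Nl.Fp_left {f : ℝ → ℝ} {a A K : ℝ} (h : Nl f a A K) {t : ℝ} (ht : t ≤ a) :
    Fp f a t = 0 := by
  unfold Fp
  rw [intervalIntegral.integral_symm]
  have : ∫ s in t..a, f s = ∫ s in t..a, (0 : ℝ) := by
    refine intervalIntegral.integral_congr fun s hs => ?_
    rw [uIcc_of_le ht] at hs
    exact h.left s hs.2
  rw [this]; simp

theorem Nl.Fp_nonneg {f : ℝ → ℝ} {a A K : ℝ} (h : Nl f a A K) (t : ℝ) : 0 ≤ Fp f a t := by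
  rcases le_total t a with ht | ht
  · rw [h.Fp_left ht]
  · have := h.Fp_mono ht
    rwa [h.Fp_left le_rfl] at this

theorem Nl.Fp_right {f : ℝ → ℝ} {a A K : ℝ} (h : Nl f a A K) {t : ℝ} (ht : A ≤ t) :
    Fp f a t = Fp f a A := by
  have e : Fp f a t = Fp f a A + ∫ s in A..t, f s := by
    unfold Fp
    rw [intervalIntegral.integral_add_adjacent_intervals (h.cont.intervalIntegrable _ _)
      (h.cont.intervalIntegrable _ _)]
  have : ∫ s in A..t, f s = ∫ s in A..t, (0 : ℝ) := by
    refine intervalIntegral.integral_congr fun s hs => ?_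
    rw [uIcc_of_le ht] at hs
    exact h.right s hs.1
  rw [e, this]; simp

theorem Nl.Fp_le {f : ℝ → ℝ} {a A K : ℝ} (h : Nl f a A K) (t : ℝ) : Fp f a t ≤ Fp f a A := by
  rcases le_total t A with ht | ht
  · exact h.Fp_mono ht
  · exact (h.Fp_right ht).le

theorem Nl.Fp_contDiff {f : ℝ → ℝ} {a A K : ℝ} (h : Nl f a A K) : ContDiff ℝ 2 (Fp f a) := by
  have h1 : deriv (Fp f a) = f := by
    funext t; exact (hasDerivAt_Fp h.cont a t).deriv
  have : ContDiff ℝ (1 + 1) (Fp f a) := by
    rw [contDiff_succ_iff_deriv]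
    refine ⟨fun t => (hasDerivAt_Fp h.cont a t).differentiableAt, by simp, ?_⟩
    rw [h1]; exact h.smooth
  exact this.of_le (by norm_num)

/-- `f` is positive only where `|t| ≤ A`. -/
theorem Nl.abs_le {f : ℝ → ℝ} {a A K : ℝ} (h : Nl f a A K) {t : ℝ} (ht : f t ≠ 0) : |t| ≤ A := by
  rw [_root_.abs_le]
  constructor
  · by_contra hc
    push Not at hc
    exact ht (h.left t (hc.le.trans h.neg_A))
  · by_contra hc
    push Not at hc
    exact ht (h.right t hc.le)

/-- `f(t) ≤ K (t - a)₊`. -/
theorem Nl.le_lin {f : ℝ → ℝ} {a A K : ℝ} (h : Nl f a A K) (t : ℝ) :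
    f t ≤ K * max 0 (t - a) := by
  rcases le_total t a with ht | ht
  · rw [h.left t ht]
    exact mul_nonneg h.K_pos.le (le_max_left _ _)
  · have := h.lip t a
    rw [h.left a le_rfl, sub_zero, abs_of_nonneg (h.nonneg t), abs_of_nonneg (by linarith)] at this
    rw [max_eq_right (by linarith)]
    exact this

end Pool.Agent.Helper35.HS3
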