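import Pool.Agent.Helper35.HS3.GoalsA

/-!
# Project HS3, packet EN1: the energy inequality for the P-function above a positive level
-/

namespace Pool.Agent.Helper35.HS3.EN1

open MeasureTheory Set Filter Topology Metric
open scoped ContDiff
open Pool.Agent.Helper35.HS3

/-! ## The one variable function -/

/-- A function of `max 0 s` is differentiable if the outer function vanishes to second order
at `0`. -/
theorem hasDerivAt_max {h h' : ℝ → ℝ} (hd : ∀ s, 0 ≤ s → HasDerivAt h (h' s) s) (h0 : h 0 = 0)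
    (h0' : h' 0 = 0) (s : ℝ) : HasDerivAt (fun t => h (max 0 t)) (h' (max 0 s)) s := by
  rcases lt_trichotomy s 0 with hs | hs | hs
  · have e : (fun t : ℝ => h (max 0 t)) =ᶠ[𝓝 s] fun _ => 0 := by
      filter_upwards [Iio_mem_nhds hs] with t ht
      rw [max_eq_left (le_of_lt ht), h0]
    rw [max_eq_left hs.le, h0']
    exact (hasDerivAt_const s (0 : ℝ)).congr_of_eventuallyEq e
  · subst hs
    rw [max_self, h0']
    have h1 := hd 0 le_rfl
    rw [h0', hasDerivAt_iff_isLittleO_nhds_zero] at h1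
    simp only [zero_add, h0, sub_zero, smul_zero] at h1
    rw [hasDerivAt_iff_isLittleO_nhds_zero]
    simp only [zero_add, max_self, h0, sub_zero, smul_zero]
    have hm : Tendsto (fun t : ℝ => max 0 t) (𝓝 0) (𝓝 0) := by
      have : Continuous fun t : ℝ => max 0 t := by fun_prop
      simpa using this.tendsto 0
    have h2 := h1.comp_tendsto hm
    refine h2.trans_isBigO (Asymptotics.IsBigO.of_bound 1 (Eventually.of_forall fun t => ?_))
    simp only [Function.comp, one_mul, Real.norm_eq_abs]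
    rw [abs_of_nonneg (le_max_left 0 t)]
    exact max_le (abs_nonneg t) (le_abs_self t)
  · have e : (fun t : ℝ => h (max 0 t)) =ᶠ[𝓝 s] h := by
      filter_upwards [Ioi_mem_nhds hs] with t ht
      rw [max_eq_right (le_of_lt ht)]
    rw [max_eq_right hs.le]
    exact (hd s hs.le).congr_of_eventuallyEq e

/-- `Γ(g) = g³/(1+g)³` at `g = max 0 s`. -/
noncomputable def Ga (s : ℝ) : ℝ := max 0 s ^ 3 / (1 + max 0 s) ^ 3

/-- `Γ'(g) = 3g²/(1+g)⁴` at `g = max 0 s`. -/
noncomputable def Gd (s : ℝ) : ℝ := 3 * max 0 s ^ 2 / (1 + max 0 s) ^ 4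

theorem hasDerivAt_Ga (s : ℝ) : HasDerivAt Ga (Gd s) s := by
  refine hasDerivAt_max (h := fun g => g ^ 3 / (1 + g) ^ 3) (h' := fun g => 3 * g ^ 2 / (1 + g) ^ 4)
    (fun g hg => ?_) (by simp) (by simp) s
  have h1 : (1 + g) ≠ 0 := by positivity
  have h2 : HasDerivAt (fun g : ℝ => g ^ 3) (3 * g ^ 2) g := by
    simpa using hasDerivAt_pow 3 g
  have h3 : HasDerivAt (fun g : ℝ => (1 + g) ^ 3) (3 * (1 + g) ^ 2 * 1) g := by
    have := ((hasDerivAt_id g).const_add 1).fun_pow 3
    simpa using this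
  have h4 := h2.fun_div h3 (pow_ne_zero 3 h1)
  refine h4.congr_deriv ?_
  field_simp
  ring

theorem contDiff_Ga : ContDiff ℝ 1 Ga := by
  rw [contDiff_one_iff_deriv]
  refine ⟨fun s => (hasDerivAt_Ga s).differentiableAt, ?_⟩
  have : deriv Ga = Gd := by
    funext s; exact (hasDerivAt_Ga s).deriv
  rw [this]
  unfold Gd
  have hm : Continuous fun s : ℝ => max 0 s := by fun_prop
  refine Continuous.div (by fun_prop) (by fun_prop) fun s => ?_
  have : 0 ≤ max 0 s := le_max_left _ _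
  positivity

theorem Ga_nonneg (s : ℝ) : 0 ≤ Ga s := by
  unfold Ga
  have : 0 ≤ max 0 s := le_max_left _ _
  positivity

theorem Ga_of_nonpos {s : ℝ} (hs : s ≤ 0) : Ga s = 0 := by
  unfold Ga
  rw [max_eq_left hs]; simp

/-! ## The pointwise inequality -/

theorem key {k κ p q N Z S z f D h θ tD g : ℝ} (hk : 0 < k) (hκ : 1 ≤ κ) (hp : k < p)
    (hq1 : 2 * p ≤ q) (hq2 : q ≤ 2 * κ * p) (hN : 0 ≤ N) (hZ : 0 ≤ Z) (hS : S ^ 2 ≤ N * Z)
    (hh : N + 2 * f * D + f ^ 2 * q ≤ h * q) (hg : g = p - k)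
    (hθ : θ * q = p * (g ^ 3 / (1 + g) ^ 3))
    (ht : q * tD = (g ^ 3 / (1 + g) ^ 3 + p * (3 * g ^ 2 / (1 + g) ^ 4)) * N
      - θ * (2 * N + 2 * f * D)) :
    1 / (8 * κ * (k + 1)) * (z ^ 2 * (g ^ 2 / (1 + g) ^ 3) * N)
      - 2 * κ * (k + 1) * (g ^ 4 / (1 + g) ^ 3 * Z) ≤
    z ^ 2 * tD + 2 * z * θ * S + z ^ 2 * θ * (h - f ^ 2) := by
  have hg0 : 0 < g := by rw [hg]; linarith
  have hp0 : 0 < p := by linarith
  have hq0 : 0 < q := by linarith
  have hκ0 : 0 < κ := by linarith
  have hk1 : 0 < k + 1 := by linarith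
  have hg1 : 0 < 1 + g := by linarith
  set G := g ^ 2 / (1 + g) ^ 3 with hG
  have hG0 : 0 < G := by positivity
  have e1 : g ^ 3 / (1 + g) ^ 3 = g * G := by rw [hG]; ring
  have e2 : g ^ 4 / (1 + g) ^ 3 = g ^ 2 * G := by rw [hG]; ring
  have e3 : 3 * g ^ 2 / (1 + g) ^ 4 = 3 * G / (1 + g) := by
    rw [hG]; field_simp
  rw [e1] at hθ ht
  rw [e3] at ht
  rw [e2]
  have hθ0 : 0 ≤ θ := by
    have : 0 ≤ θ * q := by rw [hθ]; positivity
    exact nonneg_of_mul_nonneg_left this hq0
  have hθ2 : θ ≤ g * G / 2 := by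
    have h1 : θ * (2 * p) ≤ p * (g * G) := by
      calc θ * (2 * p) ≤ θ * q := mul_le_mul_of_nonneg_left hq1 hθ0
        _ = _ := hθ
    have h2 : p * (2 * θ) ≤ p * (g * G) := by linarith
    have := le_of_mul_le_mul_left h2 hp0
    linarith
  -- the lower bound of the quadratic term
  have hω : p * G / (2 * (k + 1)) ≤ g * G / 2 + p * (3 * G / (1 + g)) := by
    rcases le_total g 1 with h1 | h1
    · have h2 : p * G / (2 * (k + 1)) ≤ p * (3 * G / (1 + g)) := by
        rw [mul_div_assoc]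
        refine mul_le_mul_of_nonneg_left ?_ hp0.le
        rw [div_le_div_iff₀ (by positivity) hg1]
        nlinarith
      have : 0 ≤ g * G / 2 := by positivity
      linarith
    · have h2 : p * G / (2 * (k + 1)) ≤ g * G / 2 := by
        rw [div_le_div_iff₀ (by positivity) (by norm_num)]
        have : p ≤ g * (k + 1) := by
          have : p = g + k := by rw [hg]; ring
          rw [this]; nlinarith
        nlinarith [mul_le_mul_of_nonneg_right this hG0.le]
      have : 0 ≤ p * (3 * G / (1 + g)) := by positivity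
      linarith
  have hX : G / (4 * κ * (k + 1)) * N ≤ tD + θ * (h - f ^ 2) := by
    have h1 : q * (tD + θ * (h - f ^ 2)) ≥ (g * G / 2 + p * (3 * G / (1 + g))) * N := by
      have h3 : θ * (N + 2 * f * D + f ^ 2 * q) ≤ θ * (h * q) := mul_le_mul_of_nonneg_left hh hθ0
      have h4 : θ * N ≤ g * G / 2 * N := mul_le_mul_of_nonneg_right hθ2 hN
      nlinarith
    have h2 : (p * G / (2 * (k + 1))) * N ≤ q * (tD + θ * (h - f ^ 2)) :=
      (mul_le_mul_of_nonneg_right hω hN).trans h1
    have h5 : 0 ≤ tD + θ * (h - f ^ 2) := by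
      have : 0 ≤ q * (tD + θ * (h - f ^ 2)) := le_trans (by positivity) h2
      exact nonneg_of_mul_nonneg_right this hq0
    have h6 : q * (tD + θ * (h - f ^ 2)) ≤ 2 * κ * p * (tD + θ * (h - f ^ 2)) :=
      mul_le_mul_of_nonneg_right hq2 h5
    have h7 : 2 * κ * p * (G / (4 * κ * (k + 1)) * N) ≤ 2 * κ * p * (tD + θ * (h - f ^ 2)) := by
      refine le_trans (le_of_eq ?_) (h2.trans h6)
      field_simp
      ring
    exact le_of_mul_le_mul_left h7 (by positivity)
  -- Young
  have hY : -(z ^ 2 * (G / (8 * κ * (k + 1))) * N + 2 * κ * (k + 1) * (g ^ 2 * G * Z)) ≤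
      2 * z * θ * S := by
    have h1 : (2 * z * θ * S) ^ 2 ≤
        (z ^ 2 * (G / (8 * κ * (k + 1))) * N + 2 * κ * (k + 1) * (g ^ 2 * G * Z)) ^ 2 := by
      have h2 : (2 * z * θ * S) ^ 2 ≤ z ^ 2 * (g * G) ^ 2 * (N * Z) := by
        have h3 : (2 * θ) ^ 2 ≤ (g * G) ^ 2 := by
          refine pow_le_pow_left₀ (by positivity) (by linarith) 2
        calc (2 * z * θ * S) ^ 2 = z ^ 2 * (2 * θ) ^ 2 * S ^ 2 := by ring
          _ ≤ z ^ 2 * (g * G) ^ 2 * (N * Z) := by
            refine mul_le_mul ?_ hS (sq_nonneg _) (by positivity)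
            exact mul_le_mul_of_nonneg_left h3 (sq_nonneg _)
      have h4 : z ^ 2 * (g * G) ^ 2 * (N * Z) =
          4 * (z ^ 2 * (G / (8 * κ * (k + 1))) * N) * (2 * κ * (k + 1) * (g ^ 2 * G * Z)) := by
        field_simp
        ring
      rw [h4] at h2
      nlinarith [sq_nonneg (z ^ 2 * (G / (8 * κ * (k + 1))) * N - 2 * κ * (k + 1) * (g ^ 2 * G * Z))]
    exact (abs_le.1 (abs_le_of_sq_le_sq h1 (by positivity))).1
  have h8 : z ^ 2 * (G / (4 * κ * (k + 1)) * N) ≤ z ^ 2 * (tD + θ * (h - f ^ 2)) :=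
    mul_le_mul_of_nonneg_left hX (sq_nonneg _)
  have h9 : 1 / (8 * κ * (k + 1)) * (z ^ 2 * G * N) =
      z ^ 2 * (G / (4 * κ * (k + 1)) * N) - z ^ 2 * (G / (8 * κ * (k + 1))) * N := by
    field_simp
    ring
  rw [h9]
  nlinarith

/-! ## The proof -/

theorem gdot_sq_le (u v : E → ℝ) (x : E) : gdot u v x ^ 2 ≤ gsq u x * gsq v x :=
  Finset.sum_mul_sq_le_sq_mul_sq Finset.univ (fun i => pd i u x) (fun i => pd i v x)

theorem proof (hB : BOCH_stmt) : EN1_stmt := by
  intro f a A K u hN hu heq k hk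
  obtain ⟨hP1, hPd, hPi⟩ := hB f a u hN.smooth hu heq
  set P := PP f a u with hPdef
  set M := Fp f a A with hM
  have hM0 : 0 ≤ M := hN.Fp_nonneg A
  set κ := 1 + M / k with hκ
  have hκ1 : 1 ≤ κ := by rw [hκ]; linarith [div_nonneg hM0 hk.le]
  have hκ0 : 0 < κ := by linarith
  have hPq : ∀ x, gsq u x = 2 * P x + 2 * Fp f a (u x) := by
    intro x
    rw [hPdef]; unfold PP; ring
  have hq1 : ∀ x, 2 * P x ≤ gsq u x := by
    intro x; rw [hPq]; linarith [hN.Fp_nonneg (u x)]
  have hq2 : ∀ x, k < P x → gsq u x ≤ 2 * κ * P x := by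
    intro x hx
    have h1 := hN.Fp_le (u x)
    have h2 : M ≤ M / k * P x := by
      calc M = M / k * k := by field_simp
        _ ≤ M / k * P x := mul_le_mul_of_nonneg_left hx.le (div_nonneg hM0 hk.le)
    rw [hPq, hκ]
    nlinarith
  have hq1C : ContDiff ℝ 1 (gsq u) := contDiff_gsq hu
  -- the function Θ
  set Θ : E → ℝ := fun x => P x * Ga (P x - k) / gsq u x with hΘ
  have hGP : ContDiff ℝ 1 (fun x => Ga (P x - k)) := contDiff_Ga.comp (hP1.sub contDiff_const)
  have hΘ1 : ContDiff ℝ 1 Θ := by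
    rw [contDiff_iff_contDiffAt]
    intro x
    rcases lt_or_ge (P x) k with hx | hx
    · have e : Θ =ᶠ[𝓝 x] fun _ => 0 := by
        filter_upwards [hP1.continuous.continuousAt.eventually (Iio_mem_nhds hx)] with y hy
        have hy' : P y < k := hy
        rw [hΘ]
        simp only
        rw [Ga_of_nonpos (by linarith)]; simp
      exact contDiffAt_const.congr_of_eventuallyEq e
    · have hne : gsq u x ≠ 0 := by
        have := hq1 x
        have : 0 < gsq u x := by linarith
        exact this.ne'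
      exact (hP1.contDiffAt.mul hGP.contDiffAt).div hq1C.contDiffAt hne
  have hΘq : ∀ x, Θ x * gsq u x = P x * Ga (P x - k) := by
    intro x
    rw [hΘ]
    simp only
    by_cases hne : gsq u x = 0
    · have := hq1 x
      rw [hne] at this
      rw [hne, Ga_of_nonpos (by linarith)]; simp
    · field_simp
  have hΘ0 : ∀ x, 0 ≤ Θ x := by
    intro x
    by_cases hne : k < P x
    · have h1 := hq1 x
      have h2 : 0 < gsq u x := by linarith
      rw [hΘ]
      simp only
      exact div_nonneg (mul_nonneg (by linarith) (Ga_nonneg _)) h2.le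
    · rw [hΘ]
      simp only
      rw [Ga_of_nonpos (by linarith)]; simp
  have hΘz : ∀ x, P x ≤ k → Θ x = 0 := by
    intro x hx
    rw [hΘ]
    simp only
    rw [Ga_of_nonpos (by linarith)]; simp
  have hΘdz : ∀ x, P x ≤ k → ∀ i, pd i Θ x = 0 := by
    intro x hx i
    have : IsLocalMin Θ x := Eventually.of_forall fun y => by
      rw [hΘz x hx]; exact hΘ0 y
    rw [pd_def, this.fderiv_eq_zero]
    rfl
  have hpdq : ∀ i x, pd i (gsq u) x = 2 * pd i P x + 2 * (f (u x) * pd i u x) := by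
    intro i x
    have e : gsq u = fun y => 2 * P y + 2 * Fp f a (u y) := funext hPq
    have hF : DifferentiableAt ℝ (fun y => Fp f a (u y)) x :=
      (hasDerivAt_Fp hN.cont a (u x)).differentiableAt.comp x (diff_of_two hu x)
    rw [e, pd_add ((diff_of_one hP1 x).const_mul 2) (hF.const_mul 2),
      pd_const_mul 2 (diff_of_one hP1 x), pd_const_mul 2 hF,
      pd_comp (hasDerivAt_Fp hN.cont a (u x)) (diff_of_two hu x)]
  have hΘd : ∀ i x, gsq u x * pd i Θ x =
      (Ga (P x - k) + P x * Gd (P x - k)) * pd i P x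
        - Θ x * (2 * pd i P x + 2 * (f (u x) * pd i u x)) := by
    intro i x
    have e : (fun y => Θ y * gsq u y) = fun y => P y * Ga (P y - k) := funext hΘq
    have h1 : pd i (fun y => Θ y * gsq u y) x = Θ x * pd i (gsq u) x + gsq u x * pd i Θ x :=
      pd_mul (diff_of_one hΘ1 x) (diff_of_one hq1C x)
    have h2 : pd i (fun y => Ga (P y - k)) x = Gd (P x - k) * pd i P x := by
      have hs : HasDerivAt (fun t => Ga (t - k)) (Gd (P x - k)) (P x) := by
        exact (hasDerivAt_Ga (P x - k)).comp_sub_const (P x) k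
      exact pd_comp (H := fun t => Ga (t - k)) hs (diff_of_one hP1 x)
    rw [e, pd_mul (diff_of_one hP1 x) (diff_of_one hGP x), h2, hpdq] at h1
    linarith
  -- Cauchy-Schwarz for the Hessian
  have hCS : ∀ x, gsq P x + 2 * f (u x) * gdot P u x + f (u x) ^ 2 * gsq u x ≤
      hsq u x * gsq u x := by
    intro x
    have h1 : ∀ i, (pd i P x + f (u x) * pd i u x) ^ 2 ≤
        gsq u x * ∑ j, pd i (pd j u) x ^ 2 := by
      intro i
      have : pd i P x + f (u x) * pd i u x = ∑ j, pd j u x * pd i (pd j u) x := by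
        rw [hPd i x]; ring
      rw [this]
      exact Finset.sum_mul_sq_le_sq_mul_sq Finset.univ _ _
    have h2 := Finset.sum_le_sum fun i (_ : i ∈ Finset.univ) => h1 i
    rw [← Finset.mul_sum, Finset.sum_comm] at h2
    have e1 : ∑ i, (pd i P x + f (u x) * pd i u x) ^ 2 =
        gsq P x + 2 * f (u x) * gdot P u x + f (u x) ^ 2 * gsq u x := by
      unfold gsq gdot
      rw [Finset.mul_sum, Finset.mul_sum, ← Finset.sum_add_distrib, ← Finset.sum_add_distrib]
      refine Finset.sum_congr rfl fun i _ => ?_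
      ring
    rw [e1] at h2
    calc _ ≤ _ := h2
      _ = _ := by unfold hsq; ring
  have hc0 : 0 < 1 / (8 * κ * (k + 1)) := by positivity
  refine ⟨2 * κ * (k + 1) / (1 / (8 * κ * (k + 1))), by positivity, fun ζ hζ hζc => ?_⟩
  -- the test function
  set φ : E → ℝ := fun x => ζ x ^ 2 * Θ x with hφ
  have hφ1 : ContDiff ℝ 1 φ := (hζ.pow 2).mul hΘ1
  have hζ2c : HasCompactSupport (fun x => ζ x ^ 2) :=
    hζc.comp_left (g := fun t : ℝ => t ^ 2) (by norm_num)
  have hφc : HasCompactSupport φ := hζ2c.mul_right (f' := Θ)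
  have hI := hPi φ hφ1 hφc
  have hpdφ : ∀ i x, pd i φ x = ζ x ^ 2 * pd i Θ x + Θ x * (2 * ζ x * pd i ζ x) := by
    intro i x
    have hd2 : DifferentiableAt ℝ (fun y => ζ y ^ 2) x := (diff_of_one hζ x).pow 2
    rw [hφ, pd_mul hd2 (diff_of_one hΘ1 x), pd_pow 2 (diff_of_one hζ x)]
    norm_num
  have hgφ : ∀ x, gdot P φ x = ζ x ^ 2 * gdot P Θ x + 2 * ζ x * Θ x * gdot P ζ x := by
    intro x
    unfold gdot
    rw [Finset.mul_sum, Finset.mul_sum, ← Finset.sum_add_distrib]
    refine Finset.sum_congr rfl fun i _ => ?_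
    rw [hpdφ]; ring
  have hgΘ : ∀ x, gsq u x * gdot P Θ x =
      (Ga (P x - k) + P x * Gd (P x - k)) * gsq P x
        - Θ x * (2 * gsq P x + 2 * f (u x) * gdot P u x) := by
    intro x
    unfold gdot
    have : gsq u x * ∑ i, pd i P x * pd i Θ x = ∑ i, pd i P x * (gsq u x * pd i Θ x) := by
      rw [Finset.mul_sum]
      refine Finset.sum_congr rfl fun i _ => ?_
      ring
    rw [this]
    have e2 : gsq P x = ∑ i, pd i P x ^ 2 := rfl
    rw [e2]
    simp only [Finset.mul_sum, mul_add, ← Finset.sum_add_distrib, ← Finset.sum_sub_distrib]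
    refine Finset.sum_congr rfl fun i _ => ?_
    rw [hΘd i x]
    ring
  set g : E → ℝ := fun x => max 0 (P x - k) with hg
  have hg0 : ∀ x, 0 ≤ g x := fun x => le_max_left _ _
  have hgc : Continuous g := continuous_const.max (hP1.continuous.sub continuous_const)
  have hpt : ∀ x, 1 / (8 * κ * (k + 1)) * (ζ x ^ 2 * (g x ^ 2 / (1 + g x) ^ 3) * gsq P x)
      - 2 * κ * (k + 1) * (g x ^ 4 / (1 + g x) ^ 3 * gsq ζ x) ≤
      gdot P φ x + φ x * (hsq u x - f (u x) ^ 2) := by
    intro x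
    by_cases hx : k < P x
    · have hgx : g x = P x - k := by
        rw [hg]; simp only
        exact max_eq_right (by linarith)
      have hGa : Ga (P x - k) = g x ^ 3 / (1 + g x) ^ 3 := rfl
      have hGd : Gd (P x - k) = 3 * g x ^ 2 / (1 + g x) ^ 4 := rfl
      have h := key (z := ζ x) (f := f (u x)) (D := gdot P u x) (h := hsq u x) (θ := Θ x)
        (tD := gdot P Θ x) hk hκ1 hx (hq1 x) (hq2 x hx)
        (gsq_nonneg P x) (gsq_nonneg ζ x) (gdot_sq_le P ζ x) (hCS x) hgx
        (by rw [hΘq x, hGa]) (by rw [hgΘ x, hGa, hGd])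
      refine h.trans (le_of_eq ?_)
      rw [hgφ]
    · push Not at hx
      have hgx : g x = 0 := by
        rw [hg]; simp only
        exact max_eq_left (by linarith)
      have hΘx := hΘz x hx
      have hgd : gdot P Θ x = 0 := by
        unfold gdot
        refine Finset.sum_eq_zero fun i _ => ?_
        rw [hΘdz x hx i]; ring
      rw [hgφ, hφ, hgx, hgd]
      simp only [hΘx]
      simp
  have hd0 : ∀ x, (1 + g x) ^ 3 ≠ 0 := fun x => by
    have := hg0 x
    positivity
  -- integrability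
  have hc1 : Continuous fun x => ζ x ^ 2 * (g x ^ 2 / (1 + g x) ^ 3) * gsq P x :=
    ((hζ.continuous.pow 2).mul ((hgc.pow 2).div ((continuous_const.add hgc).pow 3) hd0)).mul
      (continuous_gsq hP1)
  have hi1 : Integrable fun x => ζ x ^ 2 * (g x ^ 2 / (1 + g x) ^ 3) * gsq P x := by
    refine hc1.integrable_of_hasCompactSupport ?_
    exact (hζ2c.mul_right (f' := fun x => (g x ^ 2 / (1 + g x) ^ 3))).mul_right (f' := gsq P)
  have hgζc : HasCompactSupport (gsq ζ) := by
    refine HasCompactSupport.intro' (hζc : IsCompact (tsupport ζ)) (isClosed_tsupport _) fun x hx => ?_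
    unfold gsq
    refine Finset.sum_eq_zero fun i _ => ?_
    have : ζ =ᶠ[𝓝 x] fun _ => 0 := by
      have := notMem_tsupport_iff_eventuallyEq.1 hx
      exact this
    rw [pd_congr this]; simp
  have hi2 : Integrable fun x => g x ^ 4 / (1 + g x) ^ 3 * gsq ζ x := by
    refine Continuous.integrable_of_hasCompactSupport ?_ hgζc.mul_left
    exact ((hgc.pow 4).div ((continuous_const.add hgc).pow 3) hd0).mul (continuous_gsq hζ)
  have hi3 : Integrable fun x => gdot P φ x := by
    refine (continuous_gdot hP1 hφ1).integrable_of_hasCompactSupport ?_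
    refine HasCompactSupport.intro' (hφc : IsCompact (tsupport φ)) (isClosed_tsupport _) fun x hx => ?_
    unfold gdot
    refine Finset.sum_eq_zero fun i _ => ?_
    have : φ =ᶠ[𝓝 x] fun _ => 0 := by
      have := notMem_tsupport_iff_eventuallyEq.1 hx
      exact this
    rw [pd_congr this]; simp
  have hi4 : Integrable fun x => φ x * (hsq u x - f (u x) ^ 2) := by
    refine Continuous.integrable_of_hasCompactSupport ?_ hφc.mul_right
    exact hφ1.continuous.mul ((continuous_hsq hu).sub ((hN.cont.comp hu.continuous).pow 2))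
  have hfin : ∫ x, (1 / (8 * κ * (k + 1)) * (ζ x ^ 2 * (g x ^ 2 / (1 + g x) ^ 3) * gsq P x)
      - 2 * κ * (k + 1) * (g x ^ 4 / (1 + g x) ^ 3 * gsq ζ x)) ≤
      ∫ x, (gdot P φ x + φ x * (hsq u x - f (u x) ^ 2)) :=
    integral_mono ((hi1.const_mul _).sub (hi2.const_mul _)) (hi3.add hi4) hpt
  rw [integral_add hi3 hi4, hI, integral_sub (hi1.const_mul _) (hi2.const_mul _),
    integral_const_mul, integral_const_mul] at hfin
  have h5 : 1 / (8 * κ * (k + 1)) * ∫ x, ζ x ^ 2 * (g x ^ 2 / (1 + g x) ^ 3) * gsq P x ≤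
      2 * κ * (k + 1) * ∫ x, g x ^ 4 / (1 + g x) ^ 3 * gsq ζ x := by linarith
  have h6 : (∫ x, ζ x ^ 2 * (g x ^ 2 / (1 + g x) ^ 3) * gsq P x) ≤
      2 * κ * (k + 1) / (1 / (8 * κ * (k + 1))) * ∫ x, g x ^ 4 / (1 + g x) ^ 3 * gsq ζ x := by
    rw [div_mul_eq_mul_div, le_div_iff₀ hc0]
    linarith
  exact h6

end Pool.Agent.Helper35.HS3.EN1
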