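import Pool.Agent.Helper35.HS3.Basic2

/-!
# Project HS3, part A: tools on `ℝ³`

Every statement is a `Prop` with a complete proof in its docstring. In a packet file prove
`theorem proof : X_stmt` (in the namespace given in the packet); the statements named under USES
may be assumed as hypotheses. The files `Basic.lean` and `Basic2.lean` contain the calculus of
`pd`, `lap`, `gsq`, `gdot`, integration by parts (`integral_pd`, `integral_mul_pd`, `green1`,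
`green2`), the weight `kk` (`pd_kk_sq`, `kk_lower`, `kk_upper`), scaling (`integral_scale`,
`vol_ball`), the reflection `refl`, the primitive `Fp` and the half-spaces `Hs`.
-/

namespace Pool.Agent.Helper35.HS3

open MeasureTheory Set Filter Topology Metric
open scoped ContDiff

/-- **CUT.** Cut-off functions with scaled bounds.

Proof. Let `χ₀` be the `ContDiffBump` at `0` with radii `1`, `2`: smooth, values in `[0, 1]`, equal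
to `1` on the closed unit ball and `0` for `‖x‖ ≥ 2`. Its first and second partial derivatives are
continuous with compact support (`hasCompactSupport_pd`), hence bounded by some `C > 0`
(finitely many functions). Put `χ x = χ₀ (0 + R⁻¹ • x)` and use `pd_scale` twice. -/
def CUT_stmt : Prop :=
  ∃ C > 0, ∀ R : ℝ, 0 < R → ∃ χ : E → ℝ, ContDiff ℝ 2 χ ∧ HasCompactSupport χ ∧
    (∀ x, 0 ≤ χ x ∧ χ x ≤ 1) ∧ (∀ x, ‖x‖ ≤ R → χ x = 1) ∧ (∀ x, 2 * R ≤ ‖x‖ → χ x = 0) ∧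
    (∀ x i, |pd i χ x| ≤ C / R) ∧ (∀ x i j, |pd j (pd i χ) x| ≤ C / R ^ 2)

/-- **HPB.** Integration by parts on the half-spaces `Hs 1 = {x₀ > 0}`, `Hs (-1) = {x₀ < 0}`.

Proof. Fix `η : ℝ → ℝ` smooth, nondecreasing, `η = 0` on `(-∞, 1]`, `η = 1` on `[2, ∞)`
(`Real.smoothTransition (s - 1)`), `η' ≤ B`. (1) For `n ≥ 1` put `η_n x = η (n τ x₀)`, which is `C¹`,
bounded, and apply `integral_pd` to `η_n φ`: `0 = ∫ η_n ∂_j φ + ∫ φ ∂_j η_n`. By dominated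
convergence `∫ η_n ∂_j φ → ∫ x in Hs τ, ∂_j φ` (the limit of `η_n` is the indicator of `Hs τ`).
For `j ≠ 0` the second integral is `0`. For `j = 0`: `∂₀ η_n = n τ η'(n τ x₀)` is supported in
`1 ≤ n τ x₀ ≤ 2`. If `φ = 0` on `x₀ = 0` then `|φ x| ≤ C |x₀|` (mean value inequality along the
segment from `x - x₀ e₀`; `fderiv φ` is bounded), so the second integrand is at most `2 B C` on
`{‖x‖ < R', 0 < τ x₀ < 3 / n}` and `0` elsewhere (`φ = 0` for `‖x‖ ≥ R'`), which has volume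
`→ 0` (`vol_slab`).
(2) The same with `η_n x = η (n x₀)` for `φ` and `η_n (refl x)` for `ψ`: the sum of the two
integrals is the limit of
`- ∫ φ x * n η'(n x₀) + ∫ ψ x * n η'(- n x₀) = ∫ (ψ (refl x) - φ x) * n η'(n x₀)`
(`integral_refl`). With `p = x - x₀ e₀` (so `p₀ = 0`):
`ψ (refl x) - φ x ≤ (ψ p - φ p) + C |x₀| ≤ C |x₀|`, `η' ≥ 0`, and the integral of
`C |x₀| n η'(n x₀)` over `{‖x‖ < R'}` tends to `0` as in (1). -/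
def HPB_stmt : Prop :=
  (∀ (τ : ℝ) (j : Fin 3) (φ : E → ℝ), (τ = 1 ∨ τ = -1) → ContDiff ℝ 1 φ → HasCompactSupport φ →
    (j ≠ 0 ∨ ∀ x : E, x 0 = 0 → φ x = 0) → ∫ x in Hs τ, pd j φ x = 0) ∧
  (∀ φ ψ : E → ℝ, ContDiff ℝ 1 φ → HasCompactSupport φ → ContDiff ℝ 1 ψ → HasCompactSupport ψ →
    (∀ x : E, x 0 = 0 → ψ x ≤ φ x) →
    (∫ x in Hs 1, pd 0 φ x) + (∫ x in Hs (-1), pd 0 ψ x) ≤ 0)

/-- **MV.** The mean value inequality with the weight `kk y = (1 - |y|²)₊`.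

Proof. Let `G ρ = ∫ y, kk y * v (x + ρ • y)`; `G 0 = k0 * v x`. Differentiation under the
integral (`hasDerivAt_integral_of_dominated_loc_of_deriv_le`; everything is continuous with compact
support in `y`): `G' ρ = ∑ i, ∫ kk y * y i * (pd i v) (x + ρ • y)`. By `pd_kk_sq`,
`kk y * y i = - (1/4) pd i (kk²) y`, so by `integral_mul_pd` (for `φ = kk²` and the function
`y ↦ (pd i v) (x + ρ • y)`) and `pd_scale`:
`G' ρ = (ρ / 4) ∫ kk y ^ 2 * lap v (x + ρ • y)`. For `0 < ρ < r` and `‖y‖ < 1` the point `x + ρ y`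
is in the ball, so `G' ρ ≥ c k1 ρ / 4`. Integrate from `0` to `r` (e.g. `G ρ - c k1 ρ² / 8` is
monotone on `[0, r]`, `monotoneOn_of_deriv_nonneg`). -/
def MV_stmt : Prop :=
  ∀ (v : E → ℝ) (x : E) (r c : ℝ), ContDiff ℝ 2 v → 0 < r → (∀ y ∈ ball x r, c ≤ lap v y) →
    k0 * v x + c * k1 * r ^ 2 / 8 ≤ ∫ y, kk y * v (x + r • y)

/-- **MAXP.** The maximum principle on bounded open sets.

Proof. Let `U ⊆ closedBall 0 R` and suppose `v x₁ > 0`, `x₁ ∈ U`. Choose `ε > 0` with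
`ε R² < v x₁` and put `w y = v y + ε ‖y‖² - ε R²`; so `w x₁ > 0` and `w ≤ v ≤ 0` on the frontier.
On the compact set `closure U` the continuous function `w` has a maximum at some `x₂`, with value
`> 0`, so `x₂ ∈ U` (`closure U = U ∪ frontier U`). Now `w` is `C²` at `x₂`, has a local maximum
there and `lap w x₂ = lap v x₂ + 6 ε > 0` (`lap_add`, `pd_norm_sq`, `pd_coord`), so
`pd i (pd i w) x₂ > 0` for some `i`. Let `g t = w (x₂ + t • bv i)`: `g' t = pd i w (x₂ + t • bv i)`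
near `0`, `g'' 0 = pd i (pd i w) x₂ > 0`, `g' 0 = 0` (local maximum), so `g' t > 0` for small
`t > 0` and `g t > g 0` (or use `isLocalMin_of_deriv_deriv_pos` and strictness), a contradiction. -/
def MAXP_stmt : Prop :=
  ∀ (U : Set E) (v : E → ℝ), IsOpen U → Bornology.IsBounded U → ContinuousOn v (closure U) →
    (∀ x ∈ U, ContDiffAt ℝ 2 v x) → (∀ x ∈ U, 0 ≤ lap v x) → (∀ x ∈ frontier U, v x ≤ 0) →
    ∀ x ∈ U, v x ≤ 0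

/-- **MINU.** The minimum principle on arbitrary open sets for functions which are `≥ -ε` near
infinity.

Proof (from MAXP). Let `x ∈ U`, `ε > 0`, `R` as in the hypothesis, enlarged such that
`‖x‖ < R`. Apply MAXP to `v = - w - ε` on `U' = U ∩ ball 0 R`. A point `y` of the frontier of `U'`
is in the frontier of `U` (then `w y ≥ 0`), or in `U` with `‖y‖ = R` (then `w y ≥ -ε`):
indeed `y ∈ closure U`, `‖y‖ ≤ R`, and `y ∉ U'`, so if `y ∈ U` then `‖y‖ ≥ R`. Hence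
`- w x - ε ≤ 0` for all `ε > 0`. -/
def MINU_stmt : Prop :=
  ∀ (U : Set E) (w : E → ℝ), IsOpen U → ContinuousOn w (closure U) →
    (∀ x ∈ U, ContDiffAt ℝ 2 w x) → (∀ x ∈ U, lap w x ≤ 0) → (∀ x ∈ frontier U, 0 ≤ w x) →
    (∀ ε > 0, ∃ R : ℝ, ∀ x ∈ U, R ≤ ‖x‖ → -ε ≤ w x) → ∀ x ∈ U, 0 ≤ w x

/-- **POLE.** `1 / |x - y|` is harmonic off `y`.

Proof. `‖z - y‖` is `C^∞` near `x ≠ y` (`contDiffAt_norm`). Let `q z = ‖z - y‖²`; then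
`‖z - y‖⁻¹ = H (q z)` with `H t = t ^ (-1/2)` (or `(√t)⁻¹`), `pd i q z = 2 (z i - y i)`,
`gsq q = 4 q`, `lap q = 6`, and `lap_comp`: `H' q * 6 + H'' q * 4 q = 0` with
`H' = -1/2 t^(-3/2)`, `H'' = 3/4 t^(-5/2)`. -/
def POLE_stmt : Prop :=
  ∀ (y x : E), x ≠ y → ContDiffAt ℝ 2 (fun z => ‖z - y‖⁻¹) x ∧ lap (fun z => ‖z - y‖⁻¹) x = 0

/-- **SEG.** The potential of a segment: with `r₁ = |x - p|`, `r₂ = |x - q|`, `ℓ = |p - q|` the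
function `log ((r₁ + r₂ + ℓ) / (r₁ + r₂ - ℓ))` is harmonic off the segment.

Proof. If `x = p` or `x = q` the hypothesis fails, so `r₁, r₂ > 0` and both are smooth near `x`.
`pd i r₁ = (x i - p i) / r₁`, `gsq r₁ = 1`, `lap r₁ = 2 / r₁` (by `lap_comp` with `H = √` applied
to `‖z - p‖²`: `gsq = 4 r₁²`, `lap = 6`). For `σ = r₁ + r₂`: `lap σ = 2/r₁ + 2/r₂
= 2σ/(r₁ r₂)`, `gsq σ = 2 + 2 ⟨x-p, x-q⟩/(r₁ r₂)` and `2⟨x-p, x-q⟩ = r₁² + r₂² - ℓ²`, so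
`gsq σ = (σ² - ℓ²)/(r₁ r₂)`. The function is `Λ(σ)`, `Λ t = log (t + ℓ) - log (t - ℓ)` near `σ > ℓ`,
`Λ' t = -2ℓ/(t² - ℓ²)`, `Λ'' t = 4 ℓ t/(t² - ℓ²)²`. By `lap_comp` the Laplacian is
`-2ℓ/(σ²-ℓ²) * 2σ/(r₁r₂) + 4ℓσ/(σ²-ℓ²)² * (σ²-ℓ²)/(r₁r₂) = 0`. -/
def SEG_stmt : Prop :=
  ∀ (p q x : E), ‖p - q‖ < ‖x - p‖ + ‖x - q‖ →
    ContDiffAt ℝ 2 (fun z => Real.log ((‖z - p‖ + ‖z - q‖ + ‖p - q‖) /
      (‖z - p‖ + ‖z - q‖ - ‖p - q‖))) x ∧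
    lap (fun z => Real.log ((‖z - p‖ + ‖z - q‖ + ‖p - q‖) /
      (‖z - p‖ + ‖z - q‖ - ‖p - q‖))) x = 0

/-- **SOB.** A nonnegative function with the energy inequality of subsolutions, with at most
polynomial growth, and supported on a set of density `0` at infinity, vanishes.

Proof (from CUT). Replace `C` by `max C 0`. Let `I R = ∫ x in ball 0 R, m²`. Sobolev's inequality in
Mathlib (`MeasureTheory.eLpNorm_le_eLpNorm_fderiv_of_eq` with `p = 2`, `p' = 6`, `finrank = 3`):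
there is `S` with `(∫ |g|⁶)^(1/3) ≤ S ∫ ‖fderiv g‖² ≤ S ∫ gsq g` for `g ∈ C¹_c`
(`norm_fderiv_sq_le`). Take `g = χ m`, `χ` the cut-off of CUT for `R`:
`gsq (χ m) ≤ 2 χ² gsq m + 2 m² gsq χ`, `gsq χ ≤ 3 C₁² / R²`, so by the hypothesis
`(∫_{B_R} m⁶)^(1/3) ≤ 2 S (C + 1) ∫ m² gsq χ ≤ (C₂ / R²) I (2R)`. By Hölder
(`∫_{B_R} m² = ∫_{B_R} 1_{m>0} m² ≤ vol{...}^(2/3) (∫_{B_R} m⁶)^(1/3)`), for `R ≥ R₀(ε)`:
`I R ≤ (ε R³)^(2/3) C₂ R^(-2) I (2R) = C₂ ε^(2/3) I (2R)`. Choose `ε` with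
`C₂ ε^(2/3) ≤ 2^(-(N+1))`. Iterating, for `R ≥ max R₀ 1` and all `n`:
`I R ≤ 2^(-(N+1)n) I (2ⁿ R) ≤ 2^(-(N+1)n) D (2ⁿ R)^N = D R^N 2^(-n) → 0`. So `I R = 0` for all
large `R`, and `m` is continuous, so `m = 0`. -/
def SOB_stmt : Prop :=
  ∀ (m : E → ℝ) (C : ℝ) (N : ℕ), ContDiff ℝ 1 m → (∀ x, 0 ≤ m x) →
    (∀ ζ : E → ℝ, ContDiff ℝ 1 ζ → HasCompactSupport ζ →
      ∫ x, ζ x ^ 2 * gsq m x ≤ C * ∫ x, m x ^ 2 * gsq ζ x) →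
    (∃ D : ℝ, ∀ R : ℝ, 1 ≤ R → ∫ x in ball (0 : E) R, m x ^ 2 ≤ D * R ^ N) →
    (∀ ε > 0, ∃ R₀ : ℝ, ∀ R ≥ R₀, volume.real {x | x ∈ ball (0 : E) R ∧ 0 < m x} ≤ ε * R ^ 3) →
    ∀ x, m x = 0

/-- **APX.** `C¹` functions with compact support are limits in `C¹` of smooth functions supported
in a fixed ball.

Proof. `ζ = 0` off `ball 0 R'`. Take the mollification `η = ρ ⋆ ζ` with `ρ` the normed
`ContDiffBump` at `0` of outer radius `r ≤ 1` (`MeasureTheory.convolution`, lsmul); `η` is smooth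
(`HasCompactSupport.contDiff_convolution_left`), supported in `ball 0 (R' + 1)`, and
`fderiv η = ρ ⋆ fderiv ζ` (`HasCompactSupport.hasFDerivAt_convolution_right` and its relatives).
Both `ζ` and `fderiv ζ` are uniformly continuous, so for `r` small the differences are `≤ ε`
(`ContDiffBump.dist_normed_convolution_le`). -/
def APX_stmt : Prop :=
  ∀ ζ : E → ℝ, ContDiff ℝ 1 ζ → HasCompactSupport ζ → ∃ R : ℝ, (∀ x, R ≤ ‖x‖ → ζ x = 0) ∧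
    ∀ ε > 0, ∃ η : E → ℝ, ContDiff ℝ 2 η ∧ HasCompactSupport η ∧ (∀ x, R ≤ ‖x‖ → η x = 0) ∧
      ∀ x, |η x - ζ x| ≤ ε ∧ ∀ i, |pd i η x - pd i ζ x| ≤ ε

/-- **BOCH.** The weak Bochner identity for `P = |∇u|²/2 - F(u)`; `u` is only `C²`.

Proof (from APX). `P` is `C¹` and `pd i P = ∑ j, ∂_j u ∂_i ∂_j u - f(u) ∂_i u` (`pd_symm`).
(1) Let `h = f ∘ u = lap u ∈ C¹`, fix `j`, `v = ∂_j u ∈ C¹`. For `ζ ∈ C¹_c`:
`∫ gdot v ζ = - ∫ ζ ∂_j h`. For `ζ ∈ C²_c`: `∫ ∑ i, ∂_i ∂_j u ∂_i ζ = ∑ i, ∫ ∂_j ∂_i u ∂_i ζ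
= - ∑ i, ∫ ∂_i u ∂_j ∂_i ζ` (`integral_mul_pd`) `= - ∫ gdot u (∂_j ζ) = ∫ (∂_j ζ) lap u` (`green1`)
`= ∫ h ∂_j ζ = - ∫ ζ ∂_j h`. For `ζ ∈ C¹_c` take `η → ζ` as in APX (all integrals are over the fixed
ball; the integrands converge uniformly).
(2) Apply (1) to `ζ = φ v`: `∫ (v gdot v φ + φ gsq v) = - ∫ φ v ∂_j h`. Sum over `j`:
`∫ ∑ i, (∑ j, ∂_j u ∂_i ∂_j u) ∂_i φ = - ∫ φ (hsq u + gdot u h)`.
(3) `∑ i, ∫ (f(u) ∂_i u) ∂_i φ = - ∫ φ (gdot h u + f(u) lap u) = - ∫ φ (gdot h u + f(u)²)`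
(`integral_mul_pd` for the `C¹` functions `f(u) ∂_i u`, or `green1` with `φ f(u)`).
Subtract (3) from (2). -/
def BOCH_stmt : Prop :=
  ∀ (f : ℝ → ℝ) (a : ℝ) (u : E → ℝ), ContDiff ℝ 1 f → ContDiff ℝ 2 u →
    (∀ x, lap u x = f (u x)) →
    ContDiff ℝ 1 (PP f a u) ∧
    (∀ i x, pd i (PP f a u) x = ∑ j, pd j u x * pd i (pd j u) x - f (u x) * pd i u x) ∧
    ∀ φ : E → ℝ, ContDiff ℝ 1 φ → HasCompactSupport φ →
      ∫ x, gdot (PP f a u) φ x = - ∫ x, φ x * (hsq u x - f (u x) ^ 2)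

/-- **EN1.** The energy inequality for the P-function above a positive level `k`. Here
`g = max 0 (P - k)`.

Proof (from BOCH). Write `P = PP f a u`, `q = gsq u`, `F = Fp f a (u ·)`, `M = Fp f a A ≥ F`,
`Γ(g) = g³/(1+g)³`, `κ = 1 + M/k`. Where `P > k`: `q = 2P + 2F`, so `2k < 2P ≤ q ≤ 2κP`.
Let `Θ = P Γ(g) / q` where `P > k` and `Θ = 0` elsewhere. `Θ` is `C¹`: near a point with
`P < k` it is `0`; near a point with `P ≥ k` we have `q > 0` and `Θ = P Γ(max 0 (P - k)) / q`, and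
`t ↦ Γ(max 0 t)` is `C¹` (derivative `3 g²/(1+g)⁴`, which is `0` at `0`). With `∇q = 2∇P + 2f∇u`
(BOCH, formula for `pd i P`), where `P > k`:
`∇Θ = (Γ + PΓ')∇P/q - PΓ (2∇P + 2f∇u)/q²`. Put `φ = ζ² Θ ∈ C¹_c` in BOCH.
Cauchy-Schwarz: `hsq u * q ≥ ∑ i (∑ j ∂_j u ∂_i ∂_j u)² = |∇P + f∇u|²`, so where `P > k`
`hsq u - f² ≥ |∇P|²/q + 2f ∇P·∇u/q`. The identity gives
`∫ ζ² [(Γ+PΓ')|∇P|²/q - 2PΓ|∇P|²/q² - 2PΓ f ∇u·∇P/q²] + 2∫ ζ Θ ∇ζ·∇P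
   ≤ - ∫ ζ² PΓ [|∇P|²/q² + 2f ∇P·∇u/q²]`.
The terms with `f` cancel. As `P/q ≤ 1/2`: `(Γ+PΓ') - PΓ/q ≥ Γ/2 + PΓ'`, and `q ≤ 2κP`, `Θ ≤ Γ/2`, so
with `ω = (Γ/2 + PΓ')/P` (where `P > k`)
`(1/(2κ)) ∫ ζ² ω |∇P|² ≤ ∫ |ζ| Γ |∇ζ| |∇P| ≤ (1/(4κ)) ∫ ζ² ω |∇P|² + κ ∫ (Γ²/ω) |∇ζ|²`, i.e.
`∫ ζ² ω |∇P|² ≤ 4κ² ∫ (Γ²/ω) |∇ζ|²`. Finally with `c₁ = 1/(2(k+1))`: `ω ≥ c₁ g²/(1+g)³`
[`ω = g³/(2(1+g)³(k+g)) + 3g²/(1+g)⁴`; for `g ≤ 1` use the second term, `3/(1+g) ≥ 3/2`; for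
`g ≥ 1` the first, `g/(k+g) ≥ 1/(k+1)`], so `Γ²/ω ≤ g⁴/(c₁(1+g)³)`, and the claim holds with
`C = 4κ²/c₁²`. (To avoid `Γ²/ω` at `g = 0` use Young's inequality only where `P > k`; elsewhere
both sides vanish. All integrands are continuous with compact support, or bounded measurable with
compact support.) -/
def EN1_stmt : Prop :=
  ∀ (f : ℝ → ℝ) (a A K : ℝ) (u : E → ℝ), Nl f a A K → ContDiff ℝ 2 u →
    (∀ x, lap u x = f (u x)) → ∀ k > 0, ∃ C > 0, ∀ ζ : E → ℝ, ContDiff ℝ 1 ζ →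
      HasCompactSupport ζ →
      ∫ x, ζ x ^ 2 * (max 0 (PP f a u x - k) ^ 2 / (1 + max 0 (PP f a u x - k)) ^ 3) *
          gsq (PP f a u) x ≤
        C * ∫ x, (max 0 (PP f a u x - k) ^ 4 / (1 + max 0 (PP f a u x - k)) ^ 3) * gsq ζ x

/-- **EN2.** A function of `P` which satisfies the hypotheses of SOB.

Proof (from EN1; BOCH gives `P ∈ C¹`). For `g ≥ 0` let `s = √(1+g)` and `μ(g) = (s-1)²/s`. Then
`μ'(g) = (1 - 1/s²) (1/(2s)) = g/(2(1+g)^(3/2))`, which is `0` at `g = 0`, so `t ↦ μ(max 0 t)` is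
`C¹` (the derivative is `g/(2 (1+g) s)` at `g = max 0 t`, continuous) and `m = μ(max 0 (P - k))` is
`C¹` with `gsq m = g²/(4(1+g)³) gsq P`. As `s - 1 = g/(s+1)` and `s + 1 ≤ 2s`:
`m = g²/(s (s+1)²) ≥ g²/(4 s³)`, `m² ≥ g⁴/(16 (1+g)³)`. So EN1 gives
`∫ ζ² gsq m ≤ (C/4) ∫ g⁴/(1+g)³ gsq ζ ≤ 4C ∫ m² gsq ζ`. Further `m > 0 ↔ g > 0 ↔ P > k`, and
`m² = (s-1)⁴/s² ≤ s² - 1 = g` since `(s-1)³ ≤ s²(s+1)`; `g ≤ P ≤ gsq u / 2` if `g > 0`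
(`F ≥ 0`, `k > 0`), and `m = 0` otherwise. -/
def EN2_stmt : Prop :=
  ∀ (f : ℝ → ℝ) (a A K : ℝ) (u : E → ℝ), Nl f a A K → ContDiff ℝ 2 u →
    (∀ x, lap u x = f (u x)) → ∀ k > 0, ∃ (m : E → ℝ) (C : ℝ), ContDiff ℝ 1 m ∧
      (∀ x, 0 ≤ m x) ∧ (∀ x, 0 < m x ↔ k < PP f a u x) ∧ (∀ x, m x ^ 2 ≤ gsq u x / 2) ∧
      ∀ ζ : E → ℝ, ContDiff ℝ 1 ζ → HasCompactSupport ζ →
        ∫ x, ζ x ^ 2 * gsq m x ≤ C * ∫ x, m x ^ 2 * gsq ζ x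

end Pool.Agent.Helper35.HS3
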