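import Pool.Agent.Helper35.HS3.GoalsA

/-!
# Project HS3, part B: linear growth implies the gradient bound `|∇u|² ≤ β² + 2F(u)`

Every statement is a `Prop` with a complete proof in its docstring (see the header of
`GoalsA.lean`). The statements named under USES may be assumed as hypotheses.
-/

namespace Pool.Agent.Helper35.HS3

open MeasureTheory Set Filter Topology Metric
open scoped ContDiff

/-- `w` is `C²` on `ℝ³`, nonnegative on the closed half-space `{τ x₀ ≥ 0}` (`τ = ±1`) and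
superharmonic in the open half-space `Hs τ`. -/
structure SH (τ : ℝ) (w : E → ℝ) : Prop where
  sgn : τ = 1 ∨ τ = -1
  smooth : ContDiff ℝ 2 w
  nonneg : ∀ x : E, 0 ≤ τ * x 0 → 0 ≤ w x
  super : ∀ x ∈ Hs τ, lap w x ≤ 0

/-- **PL.** Phragmén–Lindelöf for subharmonic functions in the half-space `{x₀ > 0}`.

USES MAXP. Proof. Let `x₀ > 0` (if `x₀ = 0` the claim is `u x ≤ 0`), `p = x - x₀ e₀`, so `p₀ = 0`,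
and `ρ = 3 (1 + ‖p‖) + x₀ + 1`. On `U = {y | 0 < y₀, ‖y - p‖ < ρ}` let
`h y = ‖y - p‖²/ρ² + 3 y₀ (ρ - y₀)/ρ²`. Then `lap h = 6/ρ² - 6/ρ² = 0`, `h ≥ 0` where `y₀ = 0`,
and `h ≥ 1` where `‖y - p‖ = ρ`, `0 ≤ y₀` (then `y₀ ≤ ρ`). With `S = C (1 + ‖p‖ + ρ)` the function
`v = u - S h` is `≤ 0` on the frontier of `U` (there `y₀ = 0`, or `y₀ ≥ 0` and `‖y - p‖ = ρ`), so by
MAXP `u x ≤ S h x`, and `h x = (x₀² + 3 x₀ (ρ - x₀))/ρ² ≤ 3 x₀/ρ`,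
`S ≤ C (ρ/3 + ρ) = 4 C ρ/3`. -/
def PL_stmt : Prop :=
  ∀ (u : E → ℝ) (C : ℝ), ContDiff ℝ 2 u → (∀ x, 0 ≤ lap u x) → (∀ x : E, x 0 ≤ 0 → u x ≤ 0) →
    0 ≤ C → (∀ x, u x ≤ C * (1 + ‖x‖)) → ∀ x : E, 0 ≤ x 0 → u x ≤ 4 * C * x 0

/-- **LAYER.** A superharmonic function has little mass near the boundary.

USES CUT, HPB (part 1). Proof. Let `g t = t - 1 + exp (-t)`: `g 0 = g' 0 = 0`, for `t ≥ 0`:
`0 ≤ g t ≤ t`, `0 ≤ g' t ≤ 1`, `g'' t = exp (-t) > 0`, and `g'' ≥ exp (-1)` on `[0, 1]`.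
Let `s = δ R`, `G x = s² g (τ x₀/s)`, `χ` the cut-off of CUT (constant `C₁`) and `Φ = χ G ∈ C²_c`. As
`Φ = ∂₀Φ = 0` where `x₀ = 0`, HPB (1) applied to the `C¹` functions `Φ ∂_j w - w ∂_j Φ` gives
`∫ x in Hs τ, Φ lap w = ∫ x in Hs τ, w lap Φ`, and the left side is `≤ 0`. Now
`lap Φ = χ g''(τ x₀/s) + 2 ∂₀χ ∂₀G + G lap χ`. In `Hs τ`: `|∂₀G| ≤ s`, `0 ≤ G ≤ s τ x₀`, and
`∇χ`, `lap χ` vanish for `‖x‖ > 2R`, so `|2 ∂₀χ ∂₀G| ≤ 2 C₁ δ` and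
`|G lap χ| ≤ δ R * 2 R * 3 C₁/R² = 6 C₁ δ` (where `‖x‖ ≤ 2R`). Therefore
`exp (-1) * ∫ x in (left set), w ≤ ∫ x in Hs τ, χ g'' w ≤ 8 C₁ δ ∫ x in Hs τ ∩ ball 0 (3R), w`. -/
def LAYER_stmt : Prop :=
  ∃ C > 0, ∀ (τ : ℝ) (w : E → ℝ) (R δ : ℝ), SH τ w → 0 < R → 0 < δ → δ ≤ 1 →
    ∫ x in Hs τ ∩ ball (0 : E) R ∩ {x | τ * x 0 < δ * R}, w x ≤
      C * δ * ∫ x in Hs τ ∩ ball (0 : E) (3 * R), w x

/-- **LBB.** Lower bound of a superharmonic function by its mass in a ball.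

USES MV, MINU, POLE. Proof. Let `I = ∫ y in ball z ρ, w ≥ 0`. (1) For `y ∈ closedBall z ρ`:
`ball y (4ρ) ⊆ Hs τ` (as `τ z₀ ≥ 8 ρ`), so MV for `-w` (radius `4ρ`, `c = 0`) and `kk_lower`
(with `r = 4ρ`; `ball z ρ ⊆ ball y (2ρ)`, `w ≥ 0` there) give
`k0 w y ≥ ∫ kk η w (y + 4ρ η) ≥ (3/4)/(64 ρ³) I`. So `w ≥ m := 3 I/(256 k0 ρ³)` on `closedBall z ρ`.
(2) Let `z' = refl z`, `b y = m ρ (‖y - z‖⁻¹ - ‖y - z'‖⁻¹)`, `U = Hs τ \ closedBall z ρ`. For MINU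
with `w - b` on `U`: `z, z' ∉ closure U` (`closure U ⊆ {0 ≤ τ y₀, ρ ≤ ‖y - z‖}`), `lap b = 0` (POLE);
on the frontier of `U` either `y₀ = 0` (then `b y = 0` since `‖y - z‖ = ‖y - z'‖`, `w y ≥ 0`) or
`‖y - z‖ = ρ`, `0 ≤ τ y₀`, `y ∈ closedBall z ρ` (then `b y ≤ m ≤ w y`); `w - b ≥ - m ρ/‖y - z‖ ≥ -ε` for
large `‖y‖`. So `w ≥ b` on `U`.
(3) Let `x ∈ Hs τ`, `‖x‖ ≤ R`. If `‖x - z‖ ≤ ρ` then `w x ≥ m ≥ 2 m ρ² τ x₀/R³`, since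
`8 ρ ≤ ‖z‖ ≤ R`, `τ x₀ ≤ R`. Otherwise `w x ≥ b x` and, with `d = ‖x - z‖`, `d' = ‖x - z'‖`,
`d'² - d² = 4 x₀ z₀ ≥ 32 ρ τ x₀`, `d, d' ≤ 2R` (`‖z'‖ = ‖z‖`), so
`1/d - 1/d' = (d'² - d²)/(d d' (d + d')) ≥ 32 ρ τ x₀/(16 R³)` and again
`w x ≥ 2 m ρ² τ x₀/R³`. So `ρ R³ w x ≥ 2 m ρ³ τ x₀ = (3/(128 k0)) τ x₀ I`. -/
def LBB_stmt : Prop :=
  ∃ c > 0, ∀ (τ : ℝ) (w : E → ℝ) (z x : E) (ρ R : ℝ), SH τ w → 0 < ρ → 8 * ρ ≤ τ * z 0 →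
    ‖z‖ ≤ R → x ∈ Hs τ → ‖x‖ ≤ R →
    c * (τ * x 0) * ∫ y in ball z ρ, w y ≤ ρ * R ^ 3 * w x

/-- **LB.** The same for the part of the half-ball at distance `≥ δ R` from the plane.

USES LBB (constant `c₀`). Proof. The compact sets `K τ = {ζ | ‖ζ‖ ≤ 1, δ ≤ τ ζ₀}` (`τ = ±1`) are
covered by balls of radius `δ/8` around finitely many points of `K τ`; let `N ≥ 1` bound both
numbers. By scaling, `{y | ‖y‖ < R, δ R ≤ τ y₀} ⊆ ⋃ i, ball z_i (δR/8)` with `‖z_i‖ ≤ R`,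
`τ (z_i)₀ ≥ δ R = 8 ρ`, `ρ = δR/8`. The balls are in `Hs τ`, where `w ≥ 0`, so
`∫ y in (left set), w ≤ ∑ i, ∫ y in ball z_i ρ, w`, and by LBB
`c₀ (τ x₀) ∫ y in (left set), w ≤ N ρ R³ w x = (N δ/8) R⁴ w x`. -/
def LB_stmt : Prop :=
  ∀ δ : ℝ, 0 < δ → δ < 1 → ∃ c > 0, ∀ (τ : ℝ) (w : E → ℝ) (R : ℝ) (x : E), SH τ w → 0 < R →
    x ∈ Hs τ → ‖x‖ ≤ R →
    c * (τ * x 0) * ∫ y in ball (0 : E) R ∩ {y | δ * R ≤ τ * y 0}, w y ≤ R ^ 4 * w x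

/-- **BDA.** The blow-down of a superharmonic function which does not dominate a multiple of `x₀`.

USES LAYER (constant `C`), LB. Proof. Let `ε > 0`; we may take `C₀ > 0`. Choose `δ ∈ (0, 1/2]` with
`C δ 81 C₀ ≤ ε/2` and let `c` be the constant of LB for `δ`; choose `x ∈ Hs τ` with
`w x ≤ (c ε/2) τ x₀`. For `R ≥ max 1 ‖x‖` the integral over `Hs τ ∩ ball 0 R` is the sum of the
integrals over the parts `τ y₀ < δ R` and `τ y₀ ≥ δ R`; the first is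
`≤ C δ C₀ (3R)⁴ ≤ (ε/2) R⁴`, and for the second `c (τ x₀) ∫ ≤ R⁴ w x ≤ R⁴ (c ε/2) τ x₀`. -/
def BDA_stmt : Prop :=
  ∀ (τ : ℝ) (w : E → ℝ) (C₀ : ℝ), SH τ w →
    (∀ R : ℝ, 1 ≤ R → ∫ x in Hs τ ∩ ball (0 : E) R, w x ≤ C₀ * R ^ 4) →
    (∀ ε > 0, ∃ x ∈ Hs τ, w x ≤ ε * (τ * x 0)) →
    ∀ ε > 0, ∃ R₀ : ℝ, ∀ R ≥ R₀, ∫ x in Hs τ ∩ ball (0 : E) R, w x ≤ ε * R ^ 4

/-- **THE.** A convex `C²` function which vanishes on `(-∞, 0]` and has slope `1` near `+∞`.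

Proof. `θ t = ∫ s in 0..t, Real.smoothTransition s`; `θ' = smoothTransition` is smooth, monotone
(`Real.smoothTransition.monotone` or directly), with values in `[0, 1]`, `0` on `(-∞, 0]` and `1` on
`[1, ∞)`. So `θ t = 0` for `t ≤ 0`, `0 ≤ θ t ≤ max 0 t`, and `θ t ≥ t - 1`. -/
def THE_stmt : Prop :=
  ∃ θ : ℝ → ℝ, ContDiff ℝ 2 θ ∧ (∀ t, t ≤ 0 → θ t = 0) ∧ (∀ t, 0 ≤ deriv θ t) ∧
    (∀ t, 0 ≤ deriv (deriv θ) t) ∧ ∀ t, 0 ≤ θ t ∧ θ t ≤ max 0 t ∧ t - 1 ≤ θ t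

/-- **SUPB.** Pointwise bound of `|u|` by its mean value.

USES MV, THE. Proof. `J = ∫ y, kk y * |u (x + r • y)|`; by `kk_upper`
`r³ J ≤ ∫ y in ball x r, |u y| ≤ ∫ y in ball z (2r), |u y|`. (1) MV for `u` (`lap u = f(u) ≥ 0`):
`k0 u x ≤ J`. (2) `v x = θ (- u x - A)` is `C²`, and by `lap_comp` (inner function `- u - A`)
`lap v = θ''(-u-A) gsq u - θ'(-u-A) f(u)`. If `-u x - A ≤ 0` then `θ' = 0` (as `θ = 0` on `(-∞, 0]`,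
`θ` is `C¹`); otherwise `u x < -A ≤ a` and `f (u x) = 0`. So `lap v ≥ 0` and MV gives
`k0 (- u x - A - 1) ≤ k0 v x ≤ ∫ kk y v (x + r y) ≤ J`, since `θ (-u-A) ≤ max 0 (-u-A) ≤ |u|`. Hence
`k0 (|u x| - A - 1) ≤ J`. -/
def SUPB_stmt : Prop :=
  ∀ (f : ℝ → ℝ) (a A K : ℝ) (u : E → ℝ), Nl f a A K → ContDiff ℝ 2 u → (∀ x, lap u x = f (u x)) →
    ∀ (z x : E) (r : ℝ), 0 < r → ‖x - z‖ < r →
      k0 * (|u x| - A - 1) * r ^ 3 ≤ ∫ y in ball z (2 * r), |u y|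

/-- **TWO.** A bound from above by a power implies the two-sided bound.

USES MV, SUPB. Proof. We may take `C > 0`. Let `x : E`, `r = 1 + ‖x‖`. By SUPB with `z = 0`:
`k0 (|u x| - A - 1) r³ ≤ ∫ y in ball 0 (2r), |u y|`. With `kk_lower` (radius `4r`, `φ = |u|`):
`(3/4) (4r)⁻³ ∫ y in ball 0 (2r), |u| ≤ ∫ kk y |u (4r y)|
  = 2 ∫ kk y max 0 (u (4r y)) - ∫ kk y u (4r y)`. By MV the last integral is `≥ k0 u 0`, and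
`max 0 (u (4r y)) ≤ C (1 + 4r)^k` for `‖y‖ ≤ 1` (`C > 0`). Hence
`|u x| ≤ A + 1 + (4/3) 64 (2 C (1 + 4r)^k - u 0)` and `1 + 4r ≤ 5r`, `1 ≤ r^k`. -/
def TWO_stmt : Prop :=
  ∀ (f : ℝ → ℝ) (a A K : ℝ) (u : E → ℝ) (C : ℝ) (k : ℕ), Nl f a A K → ContDiff ℝ 2 u →
    (∀ x, lap u x = f (u x)) → (∀ x, u x ≤ C * (1 + ‖x‖) ^ k) →
    ∃ C' > 0, ∀ x, |u x| ≤ C' * (1 + ‖x‖) ^ k

/-- **EXBD.** Solutions of linear growth have a blow-down `α x₀⁺ - β x₀⁻`.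

USES PL, MV, BDA. Proof. `lap u = f(u) ≥ 0`. Let `S = {s | ∀ x : E, 0 < x₀ → u x ≤ s x₀}`: it is
nonempty by PL, closed, and bounded below (`s ≥ u (bv 0)`); `α = sInf S ∈ S`. Let
`T = {t | ∀ x : E, x₀ < 0 → u x ≤ t x₀}`: `0 ∈ T`, closed, and `t ≤ - u (- bv 0)` for `t ∈ T`;
`β = sSup T ∈ T`, `β ≥ 0`. `BD.right`, `BD.left` hold (where `x₀ = 0`: `u x ≤ 0`). The last claim is
the definition of `β`. `β ≤ α`: by MV (`c = 0`, `x = 0`, radius `r`)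
`k0 u 0 ≤ ∫ kk y u (r y) ≤ ∫ x in Hs 1, kk y α r y₀ + ∫ x in Hs (-1), kk y β r y₀ = (α - β) r c₀`,
`c₀ = ∫ y in Hs 1, kk y * y 0 > 0` (`integral_split`, `integral_refl_Hs`), for all `r > 0`, and if
`β > α` the right side tends to `-∞`. `limr`: `w x = α x₀ - u x` satisfies `SH 1 w`
(`lap w = - f(u)`); `|w x| ≤ (α + C)(1 + ‖x‖)`, so `∫ x in Hs 1 ∩ ball 0 R, w ≤ C₀ R⁴` for `R ≥ 1`;
if for some `ε > 0` one had `w x > ε x₀` for all `x ∈ Hs 1`, then `α - ε ∈ S`. So BDA applies.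
`liml`: `w x = β x₀ - u x` satisfies `SH (-1) w`, and if `w x > ε (-x₀)` for all `x ∈ Hs (-1)`, then
`β + ε ∈ T`. -/
def EXBD_stmt : Prop :=
  ∀ (f : ℝ → ℝ) (a A K : ℝ) (u : E → ℝ), Nl f a A K → Sl f u →
    (∃ C > 0, ∀ x, |u x| ≤ C * (1 + ‖x‖)) →
    ∃ α β, BD u α β ∧ ∀ b : ℝ, (∀ x : E, x 0 ≤ 0 → u x ≤ b * x 0) → b ≤ β

/-- **FLX.** The mass of `Δ u`.

USES CUT (constant `C₁`), HPB. Proof. Let `χ` be the cut-off for `R ≥ 1`, `|u x| ≤ C (1 + ‖x‖)`.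
(1) `green2`: `∫ χ f(u) = ∫ u lap χ ≤ (3 C₁/R²) ∫_{‖x‖ ≤ 2R} |u| ≤ (3C₁/R²) C (1 + 2R) v1 (3R)³`,
which is `≤ D R²`; and `∫ x in ball 0 R, f(u) ≤ ∫ χ f(u)`.
(2) Let `w x = α x₀ - u x`, `Φ x = χ x * x₀`: `Φ = 0`, `∂₀Φ = χ` where `x₀ = 0`, and `w = -u ≥ 0`
there. The `C¹` function `φ = w ∂₀Φ - Φ ∂₀w` with compact support is `≥ 0` where `x₀ = 0`, so by HPB
(part 2 with `ψ = 0`) `∫ x in Hs 1, ∂₀φ ≤ 0`; for `j ≠ 0` HPB (part 1) gives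
`∫ x in Hs 1, ∂_j (w ∂_jΦ - Φ ∂_j w) = 0`. Sum: `∫ x in Hs 1, (w lap Φ - Φ lap w) ≤ 0`, and
`lap w = - f(u)`, so `∫ x in Hs 1, Φ f(u) ≤ - ∫ x in Hs 1, w lap Φ`. As
`|lap Φ| = |x₀ lap χ + 2 ∂₀χ| ≤ 2R 3C₁/R² + 2C₁/R = 8C₁/R` and `lap Φ = 0` for `‖x‖ > 2R`, the right
side is `≤ (8C₁/R) ∫ x in Hs 1 ∩ ball 0 (3R), w ≤ (8C₁/R) ε' (3R)⁴` for large `R`. -/
def FLX_stmt : Prop :=
  ∀ (f : ℝ → ℝ) (a A K : ℝ) (u : E → ℝ) (α β : ℝ), Nl f a A K → Sl f u → BD u α β →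
    (∃ D > 0, ∀ R : ℝ, 1 ≤ R → ∫ x in ball (0 : E) R, f (u x) ≤ D * R ^ 2) ∧
    ∀ ε > 0, ∃ R₀ : ℝ, ∀ R ≥ R₀, ∫ x in Hs 1 ∩ ball (0 : E) R, x 0 * f (u x) ≤ ε * R ^ 3

/-- **CACC.** The gradients converge in `L²` in the blow-down.

USES CUT (constant `C₁`), HPB, FLX. Proof. `w x = α x₀ - u x`, `v x = β x₀ - u x`, so
`gsq w = gsub α u`, `gsq v = gsub β u`, `lap w = lap v = - f(u)`; `w ≥ 0` on `{x₀ ≥ 0}`, `v ≥ 0` on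
`{x₀ ≤ 0}`. Let `χ` be the cut-off for `R ≥ 1`. HPB (2) for `φ = χ² w ∂₀w`, `ψ = χ² v ∂₀v`: where
`x₀ = 0` one has `w = v = -u ≥ 0`, `ψ - φ = χ² (-u) (β - α) ≤ 0`; and HPB (1) for `χ² w ∂_j w` in
`Hs 1`, `χ² v ∂_j v` in `Hs (-1)`, `j ≠ 0`. Sum:
`∫_{Hs 1} (χ² gsq w + χ² w lap w + 2 χ w gdot χ w) + ∫_{Hs (-1)} (the same with v) ≤ 0`.
By `|2 χ w gdot χ w| ≤ (1/2) χ² gsq w + 2 w² gsq χ` (Cauchy-Schwarz) we get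
`(1/2) ∫_{Hs 1} χ² gsq w + (1/2) ∫_{Hs (-1)} χ² gsq v ≤ ∫_{Hs 1} χ² w f(u) + ∫_{Hs (-1)} χ² v f(u)
 + 2 ∫_{Hs 1} w² gsq χ + 2 ∫_{Hs (-1)} v² gsq χ`. If `f (u x) ≠ 0` then `|u x| ≤ A` (`Nl.abs_le`), so
`w ≤ α x₀ + A` on `Hs 1`, `v ≤ A` on `Hs (-1)`, and the first two integrals are at most
`α ∫_{Hs 1 ∩ ball 0 (3R)} x₀ f(u) + 2 A ∫_{ball 0 (3R)} f(u) ≤ α ε' (3R)³ + 2 A D (3R)²` (FLX).
`gsq χ ≤ 3 C₁²/R²`, `gsq χ = 0` for `‖x‖ > 2R`, `0 ≤ w, v ≤ C₂ R` there, so the last two are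
`≤ (6 C₁²/R²) C₂ R (∫_{Hs 1 ∩ ball 0 (3R)} w + ∫_{Hs (-1) ∩ ball 0 (3R)} v) ≤ C₃ ε' R³`. -/
def CACC_stmt : Prop :=
  ∀ (f : ℝ → ℝ) (a A K : ℝ) (u : E → ℝ) (α β : ℝ), Nl f a A K → Sl f u → BD u α β → GBD u α β

/-- **STRI.** The stress identity.

Proof. Let `q = gsq u/2 + F(u)` (`C¹`). `T_j = ∂₀u ∂_j u` for `j ≠ 0` and `T_0 = (∂₀u)² - q` are `C¹`
and `∑ j, ∂_j T_j = ∂₀u lap u + ∑ j, ∂_j u ∂_j∂₀u - ∑ j, ∂_j u ∂₀∂_j u - f(u) ∂₀u = 0`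
(`pd_symm`, `hasDerivAt_Fp`). By `integral_mul_pd` `0 = ∫ ζ ∑ j, ∂_j T_j = - ∫ ∑ j, T_j ∂_jζ`, and
`∑ j, T_j ∂_jζ = ∂₀u gdot u ζ - q ∂₀ζ`. -/
def STRI_stmt : Prop :=
  ∀ (f : ℝ → ℝ) (a : ℝ) (u ζ : E → ℝ), Continuous f → ContDiff ℝ 2 u →
    (∀ x, lap u x = f (u x)) → ContDiff ℝ 1 ζ → HasCompactSupport ζ →
    ∫ x, ((gsq u x / 2 + Fp f a (u x)) * pd 0 ζ x - pd 0 u x * gdot u ζ x) = 0

/-- **STR.** The balance of the slopes, `α² ≤ β² + 2 F(∞)`.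

USES STRI. Proof. Let `ζ x = kk (R⁻¹ • x)²` (`R ≥ 1`; use `pd_scale`, `pd_kk_sq`):
`pd i ζ x = - (4/R) (x i/R) kk (x/R)`, so `|pd i ζ| ≤ 4/R`, `ζ = 0` off `ball 0 R`, `0 ≤ ζ ≤ 1`, and
`∂₀ζ ≤ 0` on `Hs 1`, `≥ 0` on `Hs (-1)`. Let `m = ∫_{Hs (-1)} ∂₀ζ = - ∫_{Hs 1} ∂₀ζ
= R² m₁`, `m₁ = 4 ∫ y in Hs 1, y 0 * kk y > 0` (`integral_refl_Hs`, scaling). Write `∇u = γ e₀ + q` with
`γ = α` on `Hs 1`, `γ = β` on `Hs (-1)`, `|q|² = gsub γ u`. Then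
`(gsq u/2) ∂₀ζ - ∂₀u gdot u ζ = - (γ²/2) ∂₀ζ + (|q|²/2) ∂₀ζ - γ q·∇ζ - q₀ q·∇ζ`. With
`|∇ζ| ≤ 7/R` the last three terms are at most `(7/R) (2 |q|² + γ |q|)` and
`γ |q| ≤ η + γ² |q|²/(4η)` for every `η > 0`. So by GBD (and `vol_ball`) the integrals of these terms
over `ball 0 R` are `≤ ε R²` for large `R`. Further `0 ≤ F ≤ M := Fp f a A` gives
`∫_{Hs 1} F(u) ∂₀ζ ≥ - M m` and `∫_{Hs (-1)} F(u) ∂₀ζ ≥ 0`. Insert in STRI (`integral_split`):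
`0 ≥ - M m + (α²/2) m - (β²/2) m - ε R²`. Divide by `R²` and let `ε → 0`. -/
def STR_stmt : Prop :=
  ∀ (f : ℝ → ℝ) (a A K : ℝ) (u : E → ℝ) (α β : ℝ), Nl f a A K → Sl f u → BD u α β →
    GBD u α β → α ^ 2 ≤ β ^ 2 + 2 * Fp f a A

/-- **SMA.** In the right half-space `u` is small only on a set of density `0`.

Proof. `w = α x₀ - u ≥ 0` on `Hs 1`. Let `ε > 0` and `δ = ε/8` (we may take `ε ≤ 1`). The part of the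
set with `x₀ < δ R` has volume `≤ 4 δ R³ ≤ (ε/2) R³` (`vol_slab`). On the part with `x₀ ≥ δ R`:
`w > α δ R - A ≥ α δ R/2` once `R ≥ 2A/(α δ)`, so by Markov's inequality
(`meas_ge_le_mul_pow_eLpNorm`, or compare the integral of `w` with that of
the constant `α δ R/2` on the set) its volume is `≤ (2/(α δ R)) ∫_{Hs 1 ∩ ball 0 R} w
≤ (2/(αδR)) ε' R⁴` for large `R` (`BD.limr`), where `ε' = α δ ε/4`. -/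
def SMA_stmt : Prop :=
  ∀ (u : E → ℝ) (α β A : ℝ), Continuous u → BD u α β → 0 < α → 0 < A →
    ∀ ε > 0, ∃ R₀ : ℝ, ∀ R ≥ R₀,
      volume.real {x | x ∈ Hs 1 ∧ x ∈ ball (0 : E) R ∧ u x < A} ≤ ε * R ^ 3

/-- **MEAS.** The P-function is above a level `k > β²/2` only on a set of density `0`.

USES SMA, STR. Proof. Write `P = PP f a u`, `F ≥ 0`. The plane `x₀ = 0` is a null set. The set is
contained in the union of the plane and of three sets.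
(i) `x ∈ Hs (-1)`: `k < P ≤ gsq u/2` and `gsq u = (β + q₀)² + q₁² + q₂² ≤ (β + |q|)²`,
`|q|² = gsub β u`; so `(β + |q|)² > 2k > β²`, `|q| ≥ √(2k) - β =: c > 0`; Markov and GBD: volume
`≤ c⁻² ∫ gsub β u ≤ ε' R³`.
(ii) `x ∈ Hs 1`, `α > 0`, `u x < A`: SMA.
(iii) `x ∈ Hs 1` and (`α = 0` or `u x ≥ A`): if `α = 0` then `gsq u = gsub α u > 2k`; if `u x ≥ A` then
`F(u x) = Fp f a A` (`Nl.Fp_right`), so `gsq u > 2k + 2 Fp f a A > β² + 2 Fp f a A ≥ α²` (STR), and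
`gsq u ≤ (α + |q|)²` gives `|q| ≥ √(2k + 2 Fp f a A) - α > 0`. Markov and GBD as in (i). -/
def MEAS_stmt : Prop :=
  ∀ (f : ℝ → ℝ) (a A K : ℝ) (u : E → ℝ) (α β : ℝ), Nl f a A K → Sl f u → BD u α β →
    GBD u α β → ∀ k : ℝ, β ^ 2 / 2 < k → ∀ ε > 0, ∃ R₀ : ℝ, ∀ R ≥ R₀,
      volume.real {x | x ∈ ball (0 : E) R ∧ k < PP f a u x} ≤ ε * R ^ 3

/-- **PBD.** The gradient bound.

USES EN2, SOB, MEAS. Proof. Let `k > β²/2`; `k > 0`. Take `m`, `C` from EN2. SOB with `N = 3`: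
the growth condition: `m² ≤ gsq u/2`, and for `R ≥ R₁` (GBD with `ε = 1`)
`∫_{ball 0 R} gsq u ≤ ∑ over the two half-spaces of ∫ (2 γ² + 2 gsub γ u) ≤ 2 (α² + β²) v1 R³ + 2 R³`
(`gsq u ≤ 2 γ² + 2 gsub γ u`); for `1 ≤ R ≤ R₁` the integral is at most its value at `R₁`. The density
condition is MEAS (`m > 0 ↔ k < P`). So `m = 0`, i.e. `P ≤ k` everywhere. As `k > β²/2` is arbitrary,
`gsq u/2 - F(u) ≤ β²/2`. -/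
def PBD_stmt : Prop :=
  ∀ (f : ℝ → ℝ) (a A K : ℝ) (u : E → ℝ) (α β : ℝ), Nl f a A K → Sl f u → BD u α β →
    GBD u α β → ∀ x, gsq u x ≤ β ^ 2 + 2 * Fp f a (u x)

end Pool.Agent.Helper35.HS3
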