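import Pool.Agent.Helper35.HS3.GoalsB

/-!
# Project HS3, part C: rigidity under the gradient bound

Every statement is a `Prop` with a complete proof in its docstring (see the header of
`GoalsA.lean`). The statements named under USES may be assumed as hypotheses.
-/

namespace Pool.Agent.Helper35.HS3

open MeasureTheory Set Filter Topology Metric
open scoped ContDiff

/-- **GRON.** Gronwall.

Proof. Fix `x`, let `g t = u (x₁ + t • (x - x₁)) - a`, `M = L ‖x - x₁‖`; `g` is `C¹` and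
`|g' t| = |fderiv u (..) (x - x₁)| ≤ M max 0 (g t)` (`norm_fderiv_sq_le`). `g 0 ≤ 0`. Claim: `g ≤ 0` on
`[0, 1]`. Otherwise `g t₁ > 0`, let `s = sSup {t ∈ [0, t₁] | g t ≤ 0}`: `g s ≤ 0`, `g > 0` on
`(s, t₁]`, and `exp (-M t) g t` has derivative `exp (-M t) (g' - M g) ≤ 0` on `(s, t₁)`, so
`exp (-M t₁) g t₁ ≤ exp (-M s) g s ≤ 0`, a contradiction. Then `g' = 0` on `[0, 1]` and
`g 1 = g 0`. -/
def GRON_stmt : Prop :=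
  ∀ (u : E → ℝ) (a L : ℝ), ContDiff ℝ 1 u → 0 ≤ L →
    (∀ x, gsq u x ≤ (L * max 0 (u x - a)) ^ 2) → ∀ x₁, u x₁ ≤ a → ∀ x, u x = u x₁

/-- **PSI.** The function `H(u)` is subharmonic and `1`-Lipschitz.

Proof. Let `q t = c + 2 Fp f a t`, `q > 0` on `J`, `q' = 2 f`. On `J`: `H' = 1/√q` and
`H'' = - f/(√q)³` (continuous), so `H` is `C²` on `J` (`contDiffOn_succ_iff_deriv_of_isOpen` or
pointwise `ContDiffAt` by `contDiffAt_succ_iff_hasFDerivAt`) and `H ∘ u` is `C²`. By `pd_comp`,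
`lap_comp`: `gsq (H ∘ u) = gsq u/q(u) ≤ 1` and
`lap (H ∘ u) = f(u)/√q - f(u) gsq u/(√q)³ = (f(u)/√q) (1 - gsq u/q) ≥ 0`. -/
def PSI_stmt : Prop :=
  ∀ (f : ℝ → ℝ) (a A K : ℝ) (u : E → ℝ) (c : ℝ) (J : Set ℝ) (H : ℝ → ℝ), Nl f a A K →
    ContDiff ℝ 2 u → (∀ x, lap u x = f (u x)) → IsOpen J → (∀ x, u x ∈ J) →
    (∀ t ∈ J, 0 < c + 2 * Fp f a t) → (∀ x, gsq u x ≤ c + 2 * Fp f a (u x)) →
    (∀ t ∈ J, HasDerivAt H (1 / √(c + 2 * Fp f a t)) t) →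
    ContDiff ℝ 2 (fun x => H (u x)) ∧ (∀ x, 0 ≤ lap (fun y => H (u y)) x) ∧
      ∀ x, gsq (fun y => H (u y)) x ≤ 1

/-- **SUPG.** The supremum of a Lipschitz solution over the planes `x₀ = s`.

USES MV. Proof. `g s = ⨆ z : E, u (z + (s - z₀) • bv 0)` (the sup over the plane `x₀ = s`). It is
finite: if `x₀ = s` then `u x ≤ u (x - x₀ e₀) + L |x₀| ≤ L |s|`, and for `s ≤ 0` even `u x ≤ 0`, so
`g s ≤ 0`. For every `z` the function `s ↦ u (z + (s - z₀) e₀)` is `L`-Lipschitz, so `g` is. The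
fourth claim is the definition of the supremum. The last: let `ε > 0` and `x` with `x₀ = s`,
`g s - ε < u x`. For `y ∈ ball x r`: `|u y - g s| ≤ L r + ε`, so
`lap u y = f (u y) ≥ f (g s) - K (L r + ε) =: c`. By MV
`k0 (g s - ε) + c k1 r²/8 ≤ ∫ kk y u (x + r y) ≤ ∫ kk y g (s + r y₀)`. Let `ε → 0`. -/
def SUPG_stmt : Prop :=
  ∀ (f : ℝ → ℝ) (a A K : ℝ) (u : E → ℝ) (L : ℝ), Nl f a A K → Sl f u → 0 ≤ L →
    (∀ x y, |u x - u y| ≤ L * ‖x - y‖) →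
    ∃ g : ℝ → ℝ, (∀ s t, |g s - g t| ≤ L * |s - t|) ∧ (∀ x : E, u x ≤ g (x 0)) ∧
      (∀ s, s ≤ 0 → g s ≤ 0) ∧ (∀ s, ∀ ε > 0, ∃ x : E, x 0 = s ∧ g s - ε < u x) ∧
      ∀ s r : ℝ, 0 < r →
        k0 * g s + (f (g s) - K * L * r) * k1 * r ^ 2 / 8 ≤ ∫ y : E, kk y * g (s + r * y 0)

/-- **MOLL.** Mollification of a weak differential inequality `g'' ≥ h` in one variable.

Proof. Let `δ > 0` with `L δ ≤ ε`, `M δ ≤ ε`, `ρ` a smooth bump `≥ 0` with support in `[-δ, δ]`,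
`∫ ρ = 1` (`ContDiffBump.normed`), `G s = ∫ t, ρ t * g (s - t)` (smooth:
`HasCompactSupport.contDiff_convolution_left`), `|G - g| ≤ L δ`. Multiply the inequality at `s - t` by
`ρ t` and integrate; `h (s - t) ≥ c s := max 0 (h s - M δ)` for `|t| ≤ δ`; Fubini (the function
`(t, y) ↦ ρ t * kk y * g (s - t + r y₀)` is continuous with compact support) gives
`k0 G s + (c s - M r) k1 r²/8 ≤ ∫ y, kk y * G (s + r y₀)`. Moments: `∫ kk y * y 0 = 0` (reflection,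
`kk_refl`, `integral_refl`) and `∫ kk y * (y 0)² = k1/4` (`pd_kk_sq` and `integral_mul_pd` with the
function `y 0`). Taylor: with `D = deriv (deriv G) s`, for every `η > 0` and small `r`:
`G (s + τ) ≤ G s + G' s τ + (D/2) τ² + η τ²` for `|τ| ≤ r`, so
`(c s - M r) k1/8 ≤ D k1/8 + η k1/4`. Let `r → 0`, `η → 0`: `c s ≤ D`. -/
def MOLL_stmt : Prop :=
  ∀ (g h : ℝ → ℝ) (L M : ℝ), 0 ≤ L → 0 ≤ M → (∀ s t, |g s - g t| ≤ L * |s - t|) →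
    (∀ s t, |h s - h t| ≤ M * |s - t|) → (∀ s, 0 ≤ h s) →
    (∀ s r : ℝ, 0 < r → k0 * g s + (h s - M * r) * k1 * r ^ 2 / 8 ≤
      ∫ y : E, kk y * g (s + r * y 0)) →
    ∀ ε > 0, ∃ G : ℝ → ℝ, ContDiff ℝ 2 G ∧ (∀ s, |G s - g s| ≤ ε) ∧
      (∀ s, 0 ≤ deriv (deriv G) s) ∧ ∀ s, h s - ε ≤ deriv (deriv G) s

/-- **ODE1.** A one-dimensional differential inequality.

Proof. Write `F = Fp f a`. Fix `ε ∈ (0, 1]` and `G = G_ε` from the hypothesis.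
(1) `G' ≥ 0` on `(-∞, 0]`: `G'` is nondecreasing; if `G' s₀ < 0`, `s₀ ≤ 0`, then
`G s ≥ G s₀ + G' s₀ (s - s₀) → +∞` as `s → -∞`, but `G ≤ g + ε ≤ ε` there. Hence `G` is nondecreasing on
`(-∞, 0]`, and (let `ε → 0`) so is `g`.
(2) For every `t > a` there is `s ≤ 0` with `g s ≤ t`: otherwise (`t ≤ 0`) `f (g s) ≥ c > 0` for all
`s ≤ 0` (`f > 0` on the compact interval `[t, 0]`), and with `ε = min 1 (c/2)`: `G'' ≥ c/2` on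
`(-∞, 0]`, so `G' s ≤ G' 0 - (c/2) |s| < 0` for some `s`, contradicting (1).
(3) Let `η = (1 + K) ε`. `f (G s) ≤ f (g s) + K ε ≤ G'' s + η`. So `Q = G'²/2 - F(G) + η G` has
`Q' = G' (G'' - f(G) + η) ≥ 0` on `(-∞, 0]`. For `s ≤ s₂ ≤ 0`: `Q s₂ ≥ Q s ≥ - F(G s) + η (a - ε)`
(`G ≥ g - ε ≥ a - ε`), and by (2) `G s ≤ g s + ε ≤ a + 2ε` for suitable `s ≤ s₂` (`g` is monotone), so
`F(G s) ≤ F(a + 2ε)`. Hence, since `G s₂ ≤ ε`, `(G' s₂)²/2 ≥ F(G s₂) - κ`,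
`κ = F(a + 2ε) + η (2ε - a) ≥ 0`, and `κ → 0` as `ε → 0`.
(4) Let `s₁ < s₂ ≤ 0`. `F (g s₁) > 0` since `g s₁ > a` and `f > 0` on `(a, 0]`. Let `c₁ > 0`, `ε₀ > 0`
with `F (g s₁ - ε₀) ≥ c₁`, `g s₁ - ε₀ > a`. For `ε ≤ ε₀` and `s ∈ [s₁, s₂]`: `G s ≥ g s₁ - ε₀`,
`F(G s) ≥ c₁`, and
`(H ∘ G)' s = G' s/√(2 F(G s))`, `≥ √(max 0 (1 - κ/F(G s))) ≥ 1 - κ/c₁` (as `√x ≥ x` on `[0, 1]`). So
`H (G s₂) - H (G s₁) ≥ (1 - κ/c₁) (s₂ - s₁)`. Let `ε → 0`: `G s_i → g s_i` and `H` is continuous at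
`g s_i > a`. -/
def ODE1_stmt : Prop :=
  ∀ (f : ℝ → ℝ) (a A K : ℝ) (g H : ℝ → ℝ), Nl f a A K → (∀ t, a < t → t ≤ 0 → 0 < f t) →
    (∀ s, s ≤ 0 → a < g s ∧ g s ≤ 0) →
    (∀ ε > 0, ∃ G : ℝ → ℝ, ContDiff ℝ 2 G ∧ (∀ s, |G s - g s| ≤ ε) ∧
      (∀ s, 0 ≤ deriv (deriv G) s) ∧ ∀ s, f (g s) - ε ≤ deriv (deriv G) s) →
    (∀ t, a < t → HasDerivAt H (1 / √(2 * Fp f a t)) t) →
    ∀ s₁ s₂ : ℝ, s₁ ≤ s₂ → s₂ ≤ 0 → s₂ - s₁ ≤ H (g s₂) - H (g s₁)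

/-- **LIOU.** A Liouville theorem for superharmonic functions which increase in one direction.

USES MINU, SEG. Proof. Let `m = ⨅ x, φ x` and suppose `φ x' > m` for some `x'`; `λ = (φ x' - m)/2 > 0`,
`δ = min 1 (2λ)`. Write points as `x' + s e₀ + z` with `z₀ = 0`. Let
`Π = {x' + s e₀ + z | 1 ≤ s, ‖z‖² ≤ δ s}` (closed). On `Π`: `φ - m ≥ 2λ - ‖z‖²/(2s) ≥ λ`. We show
`φ - m ≥ λ` on `U = Πᶜ` too, which contradicts the definition of `m`. Let `T ≥ 3`, `ℓ = T - 2`,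
`p = x' + 2 e₀`, `q = x' + T e₀`, `r₁ = ‖x - p‖`, `r₂ = ‖x - q‖`, `c = δ/3`. Claim:
`r₁ + r₂ - ℓ ≥ c` on the closure of `U`, i.e. if `s ≤ 1` or `‖z‖² ≥ δ s`, `s ≥ 1`. If `s ≤ 1`:
`r₁ ≥ 2 - s`, `r₂ ≥ T - s`, so `r₁ + r₂ - ℓ ≥ 4 - 2s ≥ 2`. If `s ≥ 1`, `‖z‖² ≥ δ s`:
`r₂ ≥ T - s`, `r₁ ≤ |s - 2| + ‖z‖`, so
`r₁ + r₂ - ℓ ≥ r₁ - (s - 2) ≥ r₁ - |s - 2| = ‖z‖²/(r₁ + |s - 2|) ≥ ‖z‖²/(2|s-2| + ‖z‖)`, which
increases with `‖z‖`, so it is `≥ δ s/(2|s-2| + √(δ s)) ≥ δ s/(3 s)`. Let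
`w x = φ x - m - (λ/log (1 + 2ℓ/c)) * log ((r₁ + r₂ + ℓ)/(r₁ + r₂ - ℓ))`. On `U` it is `C²` near every
point and `lap w = lap φ ≤ 0` (SEG, `‖p - q‖ = ℓ`). On the frontier of `U` (contained in `Π` and in the
closure of `U`) `log ((r₁ + r₂ + ℓ)/(r₁ + r₂ - ℓ)) = log (1 + 2ℓ/(r₁ + r₂ - ℓ)) ≤ log (1 + 2ℓ/c)`, so
`w ≥ λ - λ = 0`. The logarithm tends to `0` at infinity and `φ ≥ m`. MINU: `w ≥ 0` on `U`. For fixed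
`x ∈ U`: `r₂ ≤ r₁ + ℓ` gives `φ x - m ≥ λ log (1 + ℓ/r₁)/log (1 + 6ℓ/δ)`, `r₁` fixed (`r₁ > 0`, as
`p ∈ Π`); `ℓ → ∞` gives `φ x - m ≥ λ`. -/
def LIOU_stmt : Prop :=
  ∀ (φ : E → ℝ) (B : ℝ), ContDiff ℝ 2 φ → (∀ x, lap φ x ≤ 0) → (∀ x, -B ≤ φ x) →
    (∀ (x z : E) (t : ℝ), 0 < t → z 0 = 0 → φ x - ‖z‖ ^ 2 / (2 * t) ≤ φ (x + t • bv 0 + z)) →
    ∀ x y, φ x = φ y

/-- **ONED.** A solution which depends on `x₀` only is a one-dimensional solution.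

Proof. `V s = u (s • bv 0)` is `C²`, `u x = V (x 0)`. By the chain rule (`u = V ∘ (x ↦ x 0)`,
`lap_comp` with inner function `x ↦ x 0`: `lap = 0`, `gsq = 1`, `pd_coord`)
`lap u x = V'' (x 0)`, so `V'' s = lap u (s • bv 0) = f (V s)`. -/
def ONED_stmt : Prop :=
  ∀ (f : ℝ → ℝ) (u : E → ℝ), ContDiff ℝ 2 u → (∀ x, lap u x = f (u x)) →
    (∀ x : E, u x = u (x 0 • bv 0)) →
    ∃ V : ℝ → ℝ, ContDiff ℝ 2 V ∧ (∀ s, deriv (deriv V) s = f (V s)) ∧ ∀ x : E, u x = V (x 0)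

/-- **RIG.** Rigidity under the gradient bound.

USES GRON, PSI, SUPG, MOLL, ODE1, LIOU, ONED. Proof. Write `F = Fp f a`.
(0) If `H ∘ u` is `C²`, subharmonic, `gsq (H ∘ u) ≤ 1`, and `φ x = x₀ - H (u x)` is bounded below, then
`φ` is constant: `lap φ ≤ 0`; `H ∘ u` is `1`-Lipschitz (`lipschitz_of_gsq`), so for `t > 0`, `z₀ = 0`
`φ (x + t e₀ + z) ≥ x₀ + t - H (u x) - √(t² + ‖z‖²) ≥ φ x - ‖z‖²/(2t)`; LIOU. If moreover `H` is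
injective on the range of `u` then `H (u x) = x₀ - const = H (u (x₀ e₀))`, so `u x = u (x₀ e₀)`: ONED.
(1) Case `β > 0`. `H t = ∫ s in 0..t, 1/√(β² + 2 F s)`, `J = univ`, PSI. `H` is strictly increasing,
`H 0 = 0`. For `x₀ ≤ 0`: `u x ≤ β x₀`, and `H t ≤ (t + A)/β` for `t ≤ 0` (the integrand is `≥ 0` and
equals `1/β` on `(-∞, a] ⊇ (-∞, -A]`), so `H (u x) ≤ x₀ + A/β`. For `x₀ ≥ 0`, `p = x - x₀ e₀`:
`H (u x) ≤ H (u p) + x₀ ≤ x₀` as `u p ≤ 0`. So `φ ≥ - A/β`.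
(2) Case `β = 0` (then `f > 0` on `(a, 0]`). `gsq u ≤ 2 F(u) ≤ K (max 0 (u - a))²` (`Nl.le_lin`). If
`u x₁ ≤ a` for some `x₁` then `u` is constant by GRON (`L = √K`): ONED. Otherwise `u > a` everywhere, so
`a < u 0 ≤ 0` and `F > 0` on `(a, ∞)`. `H t = ∫ s in 0..t, 1/√(2 F s)` for `t > a` (differentiable
there), `J = Ioi a`, `c = 0`, PSI. `L = √(2 F A)`: `u` is `L`-Lipschitz. `g` from SUPG; `g s > a`
(there is `x` with `x₀ = s`, `u x ≤ g s`). MOLL with `h = f ∘ g`, `M = K L`; ODE1: for `s ≤ 0`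
`H (g s) ≤ H (g 0) + s ≤ s` (`g 0 ≤ 0`). So for `x₀ ≤ 0`: `H (u x) ≤ H (g x₀) ≤ x₀`; for `x₀ ≥ 0` as in
(1): `H (u x) ≤ H (u p) + x₀ ≤ x₀`. So `φ ≥ 0`. `H` is strictly increasing on `(a, ∞)`. -/
def RIG_stmt : Prop :=
  ∀ (f : ℝ → ℝ) (a A K : ℝ) (u : E → ℝ) (β : ℝ), Nl f a A K → Sl f u → 0 ≤ β →
    (∀ x : E, x 0 ≤ 0 → u x ≤ β * x 0) → (∀ x, gsq u x ≤ β ^ 2 + 2 * Fp f a (u x)) →
    (0 < β ∨ ∀ t, a < t → t ≤ 0 → 0 < f t) →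
    ∃ V : ℝ → ℝ, ContDiff ℝ 2 V ∧ (∀ s, deriv (deriv V) s = f (V s)) ∧ ∀ x : E, u x = V (x 0)

end Pool.Agent.Helper35.HS3
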