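import Pool.Agent.Helper35.HS3.GoalsC

/-!
# Project HS3, part D: polynomial growth implies linear growth (frequency function)

Every statement is a `Prop` with a complete proof in its docstring (see the header of
`GoalsA.lean`). The statements named under USES may be assumed as hypotheses. Notation in the
proofs: `b = bw r x = (r² - |x|²)₊`, so `b^n` (`n ≥ 2`) is `C¹` with compact support and
`∂_i (b^n) = - 2 n x_i b^(n-1)` (`contDiff_maxpow`, `pd_maxpow`); `x·∇v = fderiv ℝ v x x`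
(`fderiv_eq_sum`).
-/

namespace Pool.Agent.Helper35.HS3

open MeasureTheory Set Filter Topology Metric
open scoped ContDiff

/-- **FQG.** The derivative in `r` of weighted integrals.

Proof. For `s > 0`, `integral_scale` (`x = 0`; `bw s (s y) = s² kk y`):
`∫ x, φ x * bw s x ^ n = s^(2n+3) ∫ y, φ (s y) * kk y ^ n`. The last integral is differentiable in `s`
(`hasDerivAt_integral_of_dominated_loc_of_deriv_le`: everything is continuous, and zero for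
`‖y‖ > 1`) with derivative `∫ y, fderiv φ (s y) y * kk y ^ n
= s⁻¹ ∫ y, fderiv φ (s y) (s y) * kk y ^ n = s⁻¹ s^(-(2n+3)) ∫ x, fderiv φ x x * bw s x ^ n`. Product
rule. -/
def FQG_stmt : Prop :=
  ∀ (φ : E → ℝ) (n : ℕ) (r : ℝ), ContDiff ℝ 1 φ → 1 ≤ n → 0 < r →
    HasDerivAt (fun s => ∫ x, φ x * bw s x ^ n)
      (((2 * n + 3) * (∫ x, φ x * bw r x ^ n) + ∫ x, fderiv ℝ φ x x * bw r x ^ n) / r) r

/-- **FQA.** Integral identities.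

Proof. (ii) `0 = ∑ i, ∫ ∂_i (x_i b³) = ∫ (3 b³ - 6 |x|² b²)` (`integral_pd`).
(i) `green1` with `φ = v b³`: `∫ v b³ lap v = - ∫ gdot (v b³) v = - ∫ b³ gsq v + 6 ∫ v (x·∇v) b²`; so
`∫ gsq v b³ + EE = 6 ∫ v (x·∇v) b²`, and `3 κ ∫ b³ = 6 κ ∫ |x|² b²` by (ii).
(iii) `0 = ∑ j, ∫ ∂_j ((x·∇v) ∂_j v b³)` (each is `C¹` with compact support), where
`∑ j, ∂_j ((x·∇v) ∂_j v) = gsq v + ∑ i j, x_i ∂_j∂_i v ∂_j v + (x·∇v) lap v` and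
`x·∇(gsq v) = 2 ∑ i j, x_i ∂_j v ∂_i∂_j v` (`pd_symm`), `∑ j, ∂_j v ∂_j b³ = - 6 (x·∇v) b²`. So
`∫ x·∇(gsq v) b³ = 12 ∫ (x·∇v)² b² - 2 ∫ gsq v b³ - 2 ∫ (x·∇v) lap v b³`, and
`∫ (x·∇v) lap v b³ = ∑ i, ∫ x_i b³ ∂_i G = - ∫ G (3 b³ - 6 |x|² b²)` (`integral_mul_pd`), so that
the last term is `E2 G r`. -/
def FQA_stmt : Prop :=
  ∀ (v : E → ℝ) (κ r : ℝ), ContDiff ℝ 2 v → 0 < r →
    (II v κ r + EE v r = 6 * ∫ x, (v x * fderiv ℝ v x x + κ * ‖x‖ ^ 2) * bw r x ^ 2) ∧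
    (∫ x, bw r x ^ 3 = 2 * ∫ x : E, ‖x‖ ^ 2 * bw r x ^ 2) ∧
    ∀ G : E → ℝ, ContDiff ℝ 1 G → (∀ i x, pd i G x = lap v x * pd i v x) →
      ∫ x, fderiv ℝ (gsq v) x x * bw r x ^ 3 =
        12 * (∫ x, fderiv ℝ v x x ^ 2 * bw r x ^ 2) - 2 * (∫ x, gsq v x * bw r x ^ 3) + E2 G r

/-- **FQH.** The system of the frequency function.

USES FQG, FQA. Proof. (1) FQG with `φ = v² + κ |x|²`, `n = 2`: `x·∇φ = 2 v (x·∇v) + 2 κ |x|²`, so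
`r H' = 7 H + 2 ∫ (v (x·∇v) + κ |x|²) b² = 7 H + (II + EE)/3` by FQA (i).
(2) Cauchy–Schwarz: `(∫ (v (x·∇v) + κ |x|²) b²)² ≤ ∫ (v² + κ |x|²) b² * ∫ ((x·∇v)² + κ |x|²) b²`,
since pointwise `|v (x·∇v) + κ |x|²| ≤ √(v² + κ|x|²) √((x·∇v)² + κ|x|²)` (or: for all real `t` the
integral of `((t v + x·∇v)² + κ (t + 1)² |x|²) b² ≥ 0` is a quadratic polynomial in `t`;
`discrim_le_zero`).
(3) FQG with `φ = gsq v + 3 κ`, `n = 3`: `r I' = 9 I + ∫ x·∇(gsq v) b³`, and by FQA (iii)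
`= 9 ∫ gsq v b³ + 27 κ ∫ b³ + 12 ∫ (x·∇v)² b² - 2 ∫ gsq v b³ + E2`; `27 κ ∫ b³ = 21 κ ∫ b³ +
12 κ ∫ |x|² b²` by FQA (ii). -/
def FQH_stmt : Prop :=
  ∀ (v : E → ℝ) (κ r : ℝ), ContDiff ℝ 2 v → 0 ≤ κ → 0 < r →
    HasDerivAt (HH v κ) ((7 * HH v κ r + (II v κ r + EE v r) / 3) / r) r ∧
    (II v κ r + EE v r) ^ 2 ≤ 36 * HH v κ r * JJ v κ r ∧
    ∀ G : E → ℝ, ContDiff ℝ 1 G → (∀ i x, pd i G x = lap v x * pd i v x) →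
      HasDerivAt (II v κ) ((7 * II v κ r + 12 * JJ v κ r + E2 G r) / r) r

/-- **FQODE.** Analysis of the system: growth of order `N` at infinity bounds the frequency at all
scales.

Proof. `H > 0`. Let `n = I/H > 0`. `r n' = (12 J + E₂)/H - I (I + E)/(3 H²)`, and
`12 J/H ≥ (I + E)²/(3 H²)`, so `r n' ≥ E (I + E)/(3 H²) + E₂/H`; and `r H'/H = 7 + (n + E/H)/3`, with
`|E/H|, |E₂/H| ≤ 1/100`. Suppose `n r₁ = M > 6 N` (`≥ 54`).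
Claim: `n ≥ M/2` on `[r₁, ∞)`. Otherwise there is a smallest `R > r₁` with `n R = M/2`. On `[r₁, R]`:
`r H'/H ≥ 7 + M/6 - 1/300 ≥ 15`, so `H r ≥ H r₁ (r/r₁)^15 ≥ 100 C₁ r₁^9 (r/r₁)^15`, hence
`|E/H|, |E₂/H| ≤ (1/100) (r₁/r)^6`, and `r n' ≥ -(1/100) (r₁/r)^6 ((n + 1)/3 + 1) ≥
-(1/100) (r₁/r)^6 n` (`n ≥ 27`). So `log n - (1/600) (r₁/r)^6` is nondecreasing on `[r₁, R]` and
`log n R ≥ log M - 1/600 > log (M/2)`, a contradiction.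
So `r H'/H ≥ 7 + M/6 - 1/300 ≥ N + 6` on `[r₁, ∞)`, `H r ≥ H r₁ (r/r₁)^(N+6)`, contradicting
`H r ≤ D r^N` for large `r`. Hence `I ≤ 6 N H`, and then `r H'/H ≤ 7 + 2 N + 1/300 ≤ 8 + 2N`:
`H r/r^(8+2N)` is nonincreasing. -/
def FQODE_stmt : Prop :=
  ∀ (H I J E₁ E₂ : ℝ → ℝ) (C₁ D : ℝ) (N : ℕ), 0 < C₁ → 9 ≤ N →
    (∀ r, 0 < r → HasDerivAt H ((7 * H r + (I r + E₁ r) / 3) / r) r) →
    (∀ r, 0 < r → HasDerivAt I ((7 * I r + 12 * J r + E₂ r) / r) r) →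
    (∀ r, 0 < r → (I r + E₁ r) ^ 2 ≤ 36 * H r * J r) →
    (∀ r, 0 < r → |E₁ r| ≤ C₁ * r ^ 9 ∧ |E₂ r| ≤ C₁ * r ^ 9 ∧ 100 * C₁ * r ^ 9 ≤ H r ∧ 0 < I r) →
    (∃ r₀, ∀ r ≥ r₀, H r ≤ D * r ^ N) →
    (∀ r, 0 < r → I r ≤ 6 * N * H r) ∧
      ∀ r₁ r₂, 0 < r₁ → r₁ ≤ r₂ → H r₂ ≤ (r₂ / r₁) ^ (8 + 2 * N) * H r₁

/-- **DOUB.** Doubling at all points and scales for solutions of polynomial growth.

USES FQA, FQH, FQODE. Proof. `κ = 4800 A K`, `N = 2k + 9`, `C₂ = 16^(8 + 2N)`. Fix `z`, `v x = u (z + x)`: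
`lap v x = f (v x)` (`lap_scale` with `r = 1`), `G x = Fp f a (v x)` is `C¹` with `∂_i G = lap v ∂_i v`.
Let `c₃ = ∫ kk³ > 0`; `∫ b³ = c₃ r^9` (`integral_scale`), and `∫ |x|² b² = c₃ r^9/2` (FQA, second
claim).
If `f t ≠ 0` then `|t| ≤ A` and `0 ≤ f ≤ K`, so `|EE| ≤ A K c₃ r^9`. `0 ≤ G ≤ Fp f a A ≤ 2 A K`, so
`|E2| ≤ 2 A K (6 + 6) c₃ r^9`. With `C₁ = 24 A K c₃`: `HH ≥ κ ∫ |x|² b² = κ c₃ r^9/2 = 100 C₁ r^9`,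
`II ≥ 3 κ c₃ r^9 > 0`. For `r ≥ 1`: `HH ≤ (C² (1 + ‖z‖ + r)^(2k) + κ r²) r⁴ v1 r³ ≤ D r^N`. FQODE with
`r₁ = r`, `r₂ = 16 r`. -/
def DOUB_stmt : Prop :=
  ∀ (f : ℝ → ℝ) (a A K : ℝ) (u : E → ℝ) (C : ℝ) (k : ℕ), Nl f a A K → ContDiff ℝ 2 u →
    (∀ x, lap u x = f (u x)) → (∀ x, |u x| ≤ C * (1 + ‖x‖) ^ k) →
    ∃ κ > 0, ∃ C₂ > 0, ∀ (z : E) (r : ℝ), 0 < r →
      HH (fun x => u (z + x)) κ (16 * r) ≤ C₂ * HH (fun x => u (z + x)) κ r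

/-- **LING.** Solutions of polynomial growth with positive phase in a half-space have linear growth.

USES LB, SUPB, DOUB. Proof. `w = -u` satisfies `SH (-1) w`. Let `t ≥ 1`, `z = - t e₀`. LB with
`δ = 1/4`, `R = 2t`, `x = - e₀`: the integral of `|u| = -u` over `{‖y‖ < 2t, t/2 ≤ - y₀}` is
`≤ C₃ t⁴`, and this set contains `ball z (t/2)`. SUPB (`r = t/4`): `|u| ≤ C₅ t` on `ball z (t/4)`.
So with `v x = u (z + x)`: `HH v κ (t/4) ≤ (C₅² + κ) t² (t/4)⁴ v1 (t/4)³ ≤ C₆ t⁹` (`bw = 0` off the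
ball). DOUB: `HH v κ (4t) ≤ C₂ C₆ t⁹`. For `‖x‖ ≤ 3t`: `bw (4t) x ≥ 7 t²`, so
`∫ y in ball z (3t), u² ≤ C₇ t⁵`, and by `|u| ≤ (t + u²/t)/2` `∫ y in ball z (3t), |u| ≤ C₈ t⁴`.
SUPB (`r = 3t/2`): `|u| ≤ C₉ t` on `ball z (3t/2) ⊇ ball 0 (t/2)`. For `x : E` take
`t = 2 ‖x‖ + 1`. -/
def LING_stmt : Prop :=
  ∀ (f : ℝ → ℝ) (a A K : ℝ) (u : E → ℝ) (k : ℕ), Nl f a A K → Sl f u →
    (∃ C > 0, ∀ x, |u x| ≤ C * (1 + ‖x‖) ^ k) → ∃ C > 0, ∀ x, |u x| ≤ C * (1 + ‖x‖)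

/-- **MAIN.** Assembly.

USES TWO, LING, EXBD, CACC, PBD, RIG. -/
def MAIN_stmt : Prop :=
  ∀ (f : ℝ → ℝ) (a A K : ℝ) (u : E → ℝ) (C : ℝ) (k : ℕ), Nl f a A K → Sl f u →
    (∀ x, u x ≤ C * (1 + ‖x‖) ^ k) →
    ((∀ t, a < t → t ≤ 0 → 0 < f t) ∨ ∃ b > 0, ∀ x : E, x 0 ≤ 0 → u x ≤ b * x 0) →
    ∃ V : ℝ → ℝ, ContDiff ℝ 2 V ∧ (∀ s, deriv (deriv V) s = f (V s)) ∧ ∀ x : E, u x = V (x 0)

end Pool.Agent.Helper35.HS3
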