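import Pool.Agent.Helper35.HS3.GoalsD

/-!
# Project HS3: assembly
-/

namespace Pool.Agent.Helper35.HS3

open MeasureTheory Set Filter Topology Metric
open scoped ContDiff

theorem main (hTWO : TWO_stmt) (hLING : LING_stmt) (hEXBD : EXBD_stmt) (hCACC : CACC_stmt)
    (hPBD : PBD_stmt) (hRIG : RIG_stmt) : MAIN_stmt := by
  intro f a A K u C k hN hS hu halt
  have h1 := hTWO f a A K u C k hN hS.smooth hS.eq hu
  have h2 := hLING f a A K u k hN hS h1
  obtain ⟨α, β, hBD, hβ⟩ := hEXBD f a A K u hN hS h2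
  have hG := hCACC f a A K u α β hN hS hBD
  have hP := hPBD f a A K u α β hN hS hBD hG
  refine hRIG f a A K u β hN hS hBD.β_nonneg hBD.left hP ?_
  rcases halt with h | ⟨b, hb, h⟩
  · exact Or.inr h
  · exact Or.inl (lt_of_lt_of_le hb (hβ b h))

/-- A bound for `f` and its Lipschitz constant. -/
theorem exists_K {f : ℝ → ℝ} (hf : ContDiff ℝ 1 f) (hc : HasCompactSupport f) :
    ∃ K > 0, (∀ t, f t ≤ K) ∧ ∀ s t, |f s - f t| ≤ K * |s - t| := by
  have h1 : ContDiff ℝ 1 f := hf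
  obtain ⟨C₁, hC₁⟩ := hc.exists_bound_of_continuous hf.continuous
  have hd : HasCompactSupport (deriv f) := hc.deriv
  have hdc : Continuous (deriv f) := hf.continuous_deriv (by norm_num)
  obtain ⟨C₂, hC₂⟩ := hd.exists_bound_of_continuous hdc
  refine ⟨max (max C₁ C₂) 1, lt_of_lt_of_le one_pos (le_max_right _ _), fun t => ?_, fun s t => ?_⟩
  · have := hC₁ t
    rw [Real.norm_eq_abs] at this
    exact (le_abs_self _).trans (this.trans ((le_max_left _ _).trans (le_max_left _ _)))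
  · have h := Convex.norm_image_sub_le_of_norm_deriv_le (f := f) (s := univ) (x := t) (y := s)
      (C := max (max C₁ C₂) 1) (fun x _ => hf.contDiffAt.differentiableAt (by norm_num))
      (fun x _ => (hC₂ x).trans ((le_max_right _ _).trans (le_max_left _ _))) convex_univ
      (mem_univ _) (mem_univ _)
    simpa [Real.norm_eq_abs] using h

theorem exists_A {f : ℝ → ℝ} (hc : HasCompactSupport f) :
    ∃ A > 0, ∀ t, A ≤ |t| → f t = 0 := by
  obtain ⟨R, hR⟩ := hc.isCompact.isBounded.subset_closedBall (0 : ℝ)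
  refine ⟨max R 0 + 1, by positivity, fun t ht => ?_⟩
  by_contra h
  have h1 := hR (subset_tsupport f h)
  rw [mem_closedBall, Real.dist_eq, sub_zero] at h1
  have := le_max_left R 0
  linarith

/-- The nonlinearity of the theorem, first alternative. -/
theorem exists_Nl_zero {f : ℝ → ℝ} (hf : ContDiff ℝ 1 f) (hc : HasCompactSupport f)
    (h0 : ∀ t, 0 ≤ f t) (hz : ∀ b ≤ 0, f b = 0 → ∀ t ≤ b, f t = 0) :
    ∃ a A K, Nl f a A K ∧ ∀ t, a < t → t ≤ 0 → 0 < f t := by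
  obtain ⟨K, hK, hK1, hK2⟩ := exists_K hf hc
  obtain ⟨A, hA, hA1⟩ := exists_A hc
  set Z : Set ℝ := {b | b ≤ 0 ∧ f b = 0} with hZ
  have hne : (-A) ∈ Z := ⟨by linarith, hA1 _ (by rw [abs_neg, abs_of_pos hA])⟩
  have hbdd : BddAbove Z := ⟨0, fun b hb => hb.1⟩
  have hcl : IsClosed Z := by
    have e : Z = Iic 0 ∩ f ⁻¹' {0} := by ext b; simp [hZ]
    rw [e]
    exact isClosed_Iic.inter (isClosed_singleton.preimage hf.continuous)
  have ha : sSup Z ∈ Z := hcl.csSup_mem ⟨_, hne⟩ hbdd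
  refine ⟨sSup Z, A, K, ⟨hf, h0, ha.1, hA, le_csSup hbdd hne, hK, hz _ ha.1 ha.2, ?_, hK1, hK2⟩, ?_⟩
  · intro t ht
    exact hA1 t (ht.trans (le_abs_self t))
  · intro t ht ht0
    refine lt_of_le_of_ne (h0 t) fun h => ?_
    exact absurd (le_csSup hbdd (show t ∈ Z from ⟨ht0, h.symm⟩)) (not_le.2 ht)

/-- The nonlinearity of the theorem, second alternative. -/
theorem exists_Nl {f : ℝ → ℝ} (hf : ContDiff ℝ 1 f) (hc : HasCompactSupport f)
    (h0 : ∀ t, 0 ≤ f t) : ∃ a A K, Nl f a A K := by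
  obtain ⟨K, hK, hK1, hK2⟩ := exists_K hf hc
  obtain ⟨A, hA, hA1⟩ := exists_A hc
  refine ⟨-A, A, K, ⟨hf, h0, by linarith, hA, le_rfl, hK, fun t ht => ?_, fun t ht => ?_, hK1, hK2⟩⟩
  · exact hA1 t (by rw [le_abs]; right; linarith)
  · exact hA1 t (ht.trans (le_abs_self t))

/-- The theorem with `lap`. -/
theorem final (hM : MAIN_stmt) {f : ℝ → ℝ} (hf : ContDiff ℝ 1 f) (hc : HasCompactSupport f)
    (h0 : ∀ t, 0 ≤ f t) {u : E → ℝ} (hu : ContDiff ℝ 2 u) (he : ∀ x, lap u x = f (u x))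
    (hn : ∀ x : E, x 0 ≤ 0 → u x ≤ 0) {C : ℝ} {k : ℕ} (hg : ∀ x, u x ≤ C * (1 + ‖x‖) ^ k)
    (halt : (∀ b ≤ 0, f b = 0 → ∀ t ≤ b, f t = 0) ∨ ∃ b > 0, ∀ x : E, x 0 ≤ 0 → u x ≤ b * x 0) :
    ∃ V : ℝ → ℝ, ContDiff ℝ 2 V ∧ (∀ s, deriv (deriv V) s = f (V s)) ∧ ∀ x : E, u x = V (x 0) := by
  rcases halt with h | h
  · obtain ⟨a, A, K, hN, hp⟩ := exists_Nl_zero hf hc h0 h
    exact hM f a A K u C k hN ⟨hu, he, hn⟩ hg (Or.inl hp)
  · obtain ⟨a, A, K, hN⟩ := exists_Nl hf hc h0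
    exact hM f a A K u C k hN ⟨hu, he, hn⟩ hg (Or.inr h)

end Pool.Agent.Helper35.HS3
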