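import Mathlib

/-!
# Project HS3: the one-dimensional profile is strictly increasing or constant
-/

namespace Pool.Agent.Helper35.HS3

open Set Filter Topology
open scoped ContDiff NNReal

/-- A solution of `V'' = f(V)`, `f ≥ 0` Lipschitz, which is bounded above on `(-∞, 0]`, has a
positive derivative everywhere or is constant. -/
theorem deriv_pos_or_const {f V : ℝ → ℝ} {K : ℝ} (h0 : ∀ t, 0 ≤ f t)
    (hK : ∀ s t, |f s - f t| ≤ K * |s - t|) (hV : ContDiff ℝ 2 V)
    (he : ∀ s, deriv (deriv V) s = f (V s)) (hn : ∀ s ≤ 0, V s ≤ 0) :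
    (∀ s, 0 < deriv V s) ∨ ∀ s, V s = V 0 := by
  have hd1 : Differentiable ℝ V := hV.differentiable (by norm_num)
  have hV' : ContDiff ℝ 1 (deriv V) := by
    have : ContDiff ℝ (1 + 1) V := hV
    exact (contDiff_succ_iff_deriv.1 this).2.2
  have hd2 : Differentiable ℝ (deriv V) := hV'.differentiable (by norm_num)
  have hmono : Monotone (deriv V) := monotone_of_deriv_nonneg hd2 fun s => by
    rw [he]; exact h0 _
  -- the derivative is nonnegative
  have hpos : ∀ s, 0 ≤ deriv V s := by
    intro s
    by_contra hs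
    push Not at hs
    -- for `t ≤ s`: `V t ≥ V s + V' s (t - s)`
    have key : ∀ t ≤ s, V s + deriv V s * (t - s) ≤ V t := by
      intro t ht
      rcases ht.eq_or_lt with rfl | ht
      · simp
      obtain ⟨c, hc, hc'⟩ := exists_deriv_eq_slope V ht hd1.continuous.continuousOn
        hd1.differentiableOn
      have h1 : deriv V c ≤ deriv V s := hmono hc.2.le
      have h2 : deriv V c * (s - t) = V s - V t := by
        have : s - t ≠ 0 := by linarith
        rw [hc']; field_simp
      nlinarith
    set t : ℝ := min 0 (min s (s + (1 - V s) / deriv V s)) with ht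
    have h1 : t ≤ s := (min_le_right _ _).trans (min_le_left _ _)
    have h2 : t ≤ 0 := min_le_left _ _
    have h3 : t ≤ s + (1 - V s) / deriv V s := (min_le_right _ _).trans (min_le_right _ _)
    have h4 := key t h1
    have h5 := hn t h2
    have h6 : deriv V s * (t - s) ≥ 1 - V s := by
      have : t - s ≤ (1 - V s) / deriv V s := by linarith
      have h7 := mul_le_mul_of_nonpos_left this hs.le
      rwa [mul_div_cancel₀ _ hs.ne] at h7
    linarith
  by_cases hz : ∃ s₀, deriv V s₀ = 0
  · right
    obtain ⟨s₀, hs₀⟩ := hz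
    have hz' : ∀ s ≤ s₀, deriv V s = 0 := fun s hs =>
      le_antisymm ((hmono hs).trans hs₀.le) (hpos s)
    -- `V` is constant on `(-∞, s₀]`
    set c := V s₀ with hc
    have hf : f c = 0 := by
      have h1 : deriv (deriv V) s₀ = 0 := by
        have h2 : HasDerivWithinAt (deriv V) (deriv (deriv V) s₀) (Iic s₀) s₀ :=
          (hd2 s₀).hasDerivAt.hasDerivWithinAt
        have h3 : HasDerivWithinAt (deriv V) 0 (Iic s₀) s₀ := by
          refine (hasDerivWithinAt_const s₀ (Iic s₀) (0 : ℝ)).congr (fun s hs => hz' s hs) hs₀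
        exact (uniqueDiffWithinAt_Iic s₀).eq_deriv _ h2 h3
      rw [← he, h1]
    -- uniqueness for the system
    have hL : ∀ _ : ℝ, LipschitzOnWith (Real.toNNReal (max 1 K))
        (fun p : ℝ × ℝ => (p.2, f p.1)) univ := by
      intro _
      refine LipschitzOnWith.of_dist_le_mul fun p _ q _ => ?_
      rw [Real.coe_toNNReal _ (by positivity)]
      have h1 : dist p.1 q.1 ≤ dist p q := le_max_left _ _
      have h2 : dist p.2 q.2 ≤ dist p q := le_max_right _ _
      have h3 : 0 ≤ dist p q := dist_nonneg
      refine max_le ?_ ?_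
      · change dist p.2 q.2 ≤ _
        calc dist p.2 q.2 ≤ 1 * dist p q := by rw [one_mul]; exact h2
          _ ≤ _ := mul_le_mul_of_nonneg_right (le_max_left _ _) h3
      · change dist (f p.1) (f q.1) ≤ _
        rw [Real.dist_eq]
        refine (hK _ _).trans ?_
        rw [Real.dist_eq] at h1
        calc K * |p.1 - q.1| ≤ max 1 K * |p.1 - q.1| :=
              mul_le_mul_of_nonneg_right (le_max_right _ _) (abs_nonneg _)
          _ ≤ _ := mul_le_mul_of_nonneg_left h1 (by positivity)
    have hu := ODE_solution_unique_univ (f := fun s => (V s, deriv V s)) (g := fun _ => (c, (0 : ℝ)))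
      (v := fun _ p => (p.2, f p.1)) (s := fun _ => univ) (t₀ := s₀) hL
      (fun s => ⟨by
        have h1 := (hd1 s).hasDerivAt.prodMk (hd2 s).hasDerivAt
        rwa [he s] at h1, mem_univ _⟩)
      (fun s => ⟨by
        have h1 := hasDerivAt_const s (c, (0 : ℝ))
        have e : ((0 : ℝ), f c) = (0 : ℝ × ℝ) := by rw [hf]; rfl
        change HasDerivAt (fun _ : ℝ => (c, (0 : ℝ))) ((0 : ℝ), f c) s
        rw [e]; exact h1, mem_univ _⟩) (by simp [hs₀, hc])
    intro s
    have h1 : V s = c := congrArg Prod.fst (congrFun hu s)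
    have h2 : V 0 = c := congrArg Prod.fst (congrFun hu 0)
    rw [h1, h2]
  · left
    push Not at hz
    exact fun s => lt_of_le_of_ne (hpos s) (hz s).symm

end Pool.Agent.Helper35.HS3
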