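import Pool.Agent.Helper35.HS3.Basic2

/-!
# A bounded radial solution

`u x = -(1 + |x|²)^(-1/3)` solves `Δ u = f(u)` on `ℝ³` with `f t = (2/9) t⁴ (1 - 8 t³)` on `[-1, 0]`.
-/

namespace Pool.Agent.Helper35.HS3.Radial

open MeasureTheory Set Filter Topology Metric
open scoped ContDiff

/-- the nonlinearity -/
noncomputable def ff (t : ℝ) : ℝ :=
  ((2 / 9) * t ^ 4 * (1 - 8 * t ^ 3)) *
    (Real.smoothTransition (t + 2) * Real.smoothTransition (1 - 2 * t))

theorem ff_contDiff : ContDiff ℝ ∞ ff := by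
  unfold ff
  have h1 : ContDiff ℝ ∞ fun t : ℝ => Real.smoothTransition (t + 2) :=
    Real.smoothTransition.contDiff.comp (contDiff_id.add contDiff_const)
  have h2 : ContDiff ℝ ∞ fun t : ℝ => Real.smoothTransition (1 - 2 * t) :=
    Real.smoothTransition.contDiff.comp (contDiff_const.sub (contDiff_const.mul contDiff_id))
  have h3 : ContDiff ℝ ∞ fun t : ℝ => (2 / 9) * t ^ 4 * (1 - 8 * t ^ 3) := by fun_prop
  exact h3.mul (h1.mul h2)

theorem ff_zero {t : ℝ} (ht : t ≤ -2 ∨ 1 / 2 ≤ t) : ff t = 0 := by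
  unfold ff
  rcases ht with ht | ht
  · rw [Real.smoothTransition.zero_of_nonpos (by linarith : t + 2 ≤ 0)]; ring
  · rw [Real.smoothTransition.zero_of_nonpos (by linarith : 1 - 2 * t ≤ 0)]; ring

theorem ff_nonneg (t : ℝ) : 0 ≤ ff t := by
  rcases le_or_gt (1 / 2) t with ht | ht
  · rw [ff_zero (Or.inr ht)]
  · unfold ff
    have h1 : t ^ 3 ≤ (1 / 2) ^ 3 := by
      rcases le_or_gt t 0 with h | h
      · have : t ^ 3 ≤ 0 := by nlinarith [sq_nonneg t]
        linarith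
      · exact pow_le_pow_left₀ h.le ht.le 3
    have h2 : 0 ≤ 1 - 8 * t ^ 3 := by linarith
    have h3 := Real.smoothTransition.nonneg (t + 2)
    have h4 := Real.smoothTransition.nonneg (1 - 2 * t)
    positivity

theorem ff_compact : HasCompactSupport ff := by
  refine HasCompactSupport.intro (isCompact_Icc (a := (-2 : ℝ)) (b := 1 / 2)) fun t ht => ?_
  apply ff_zero
  rw [mem_Icc, not_and_or] at ht
  rcases ht with h | h
  · left; linarith
  · right; linarith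

theorem ff_eq {t : ℝ} (h1 : -1 ≤ t) (h2 : t ≤ 0) : ff t = (2 / 9) * t ^ 4 * (1 - 8 * t ^ 3) := by
  unfold ff
  rw [Real.smoothTransition.one_of_one_le (by linarith : (1 : ℝ) ≤ t + 2),
    Real.smoothTransition.one_of_one_le (by linarith : (1 : ℝ) ≤ 1 - 2 * t)]
  ring

/-- the solution -/
noncomputable def uu (x : E) : ℝ := -(1 + ‖x‖ ^ 2) ^ (-(1 / 3) : ℝ)

theorem pos_base (x : E) : 0 < 1 + ‖x‖ ^ 2 := by positivity

theorem uu_contDiff : ContDiff ℝ ∞ uu := by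
  unfold uu
  rw [contDiff_iff_contDiffAt]
  intro x
  have h1 : ContDiffAt ℝ ∞ (fun y : E => 1 + ‖y‖ ^ 2) x :=
    (contDiff_const.add (contDiff_norm_sq ℝ)).contDiffAt
  exact (h1.rpow_const_of_ne (pos_base x).ne').neg

theorem uu_lt (x : E) : uu x < 0 := by
  unfold uu
  have := Real.rpow_pos_of_pos (pos_base x) (-(1 / 3) : ℝ)
  linarith

theorem uu_ge (x : E) : -1 ≤ uu x := by
  unfold uu
  have h : (1 + ‖x‖ ^ 2) ^ (-(1 / 3) : ℝ) ≤ 1 :=
    Real.rpow_le_one_of_one_le_of_nonpos (by nlinarith [sq_nonneg ‖x‖]) (by norm_num)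
  linarith

theorem uu_zero : uu 0 = -1 := by
  unfold uu; simp

theorem uu_gt {x : E} (hx : x ≠ 0) : -1 < uu x := by
  unfold uu
  have h0 : 0 < ‖x‖ := norm_pos_iff.2 hx
  have h : (1 + ‖x‖ ^ 2) ^ (-(1 / 3) : ℝ) < 1 :=
    Real.rpow_lt_one_of_one_lt_of_neg (by nlinarith) (by norm_num)
  linarith

/-- the profile, its first and second derivative -/
theorem hasDerivAt_prof {t : ℝ} (ht : 0 < 1 + t) :
    HasDerivAt (fun s : ℝ => -(1 + s) ^ (-(1 / 3) : ℝ)) ((1 / 3) * (1 + t) ^ (-(4 / 3) : ℝ)) t := by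
  have h1 : HasDerivAt (fun s : ℝ => 1 + s) 1 t := (hasDerivAt_id t).const_add 1
  have h2 := (h1.rpow_const (p := (-(1 / 3) : ℝ)) (Or.inl ht.ne')).neg
  have e : (1 / 3) * (1 + t) ^ (-(4 / 3) : ℝ) =
      -(1 * (-(1 / 3) : ℝ) * (1 + t) ^ ((-(1 / 3) : ℝ) - 1)) := by
    rw [show (-(1 / 3) : ℝ) - 1 = -(4 / 3) by norm_num]; ring
  rw [e]
  exact h2

theorem hasDerivAt_prof' {t : ℝ} (ht : 0 < 1 + t) :
    HasDerivAt (fun s : ℝ => (1 / 3) * (1 + s) ^ (-(4 / 3) : ℝ))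
      (-(4 / 9) * (1 + t) ^ (-(7 / 3) : ℝ)) t := by
  have h1 : HasDerivAt (fun s : ℝ => 1 + s) 1 t := (hasDerivAt_id t).const_add 1
  have h2 := (h1.rpow_const (p := (-(4 / 3) : ℝ)) (Or.inl ht.ne')).const_mul (1 / 3)
  have e : -(4 / 9) * (1 + t) ^ (-(7 / 3) : ℝ) =
      1 / 3 * (1 * (-(4 / 3) : ℝ) * (1 + t) ^ ((-(4 / 3) : ℝ) - 1)) := by
    rw [show (-(4 / 3) : ℝ) - 1 = -(7 / 3) by norm_num]; ring
  rw [e]
  exact h2

theorem pd_uu (i : Fin 3) (x : E) :
    pd i uu x = (1 / 3) * (1 + ‖x‖ ^ 2) ^ (-(4 / 3) : ℝ) * (2 * x i) := by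
  have h := pd_comp (i := i) (H := fun s : ℝ => -(1 + s) ^ (-(1 / 3) : ℝ)) (u := fun y : E => ‖y‖ ^ 2)
    (x := x) (hasDerivAt_prof (pos_base x))
    ((contDiff_norm_sq ℝ (n := 1)).differentiable (by norm_num) x)
  rw [pd_norm_sq] at h
  exact h

theorem lap_uu (x : E) : lap uu x = ff (uu x) := by
  have hq : ContDiffAt ℝ 2 (fun y : E => ‖y‖ ^ 2) x := (contDiff_norm_sq ℝ).contDiffAt
  have h := lap_comp (H := fun s : ℝ => -(1 + s) ^ (-(1 / 3) : ℝ))
    (H' := fun s : ℝ => (1 / 3) * (1 + s) ^ (-(4 / 3) : ℝ))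
    (H'' := -(4 / 9) * (1 + ‖x‖ ^ 2) ^ (-(7 / 3) : ℝ)) (u := fun y : E => ‖y‖ ^ 2) (x := x)
    (by
      have hc : Continuous fun s : ℝ => 1 + s := by fun_prop
      have : ∀ᶠ t in 𝓝 (‖x‖ ^ 2), 0 < 1 + t :=
        hc.continuousAt.eventually (lt_mem_nhds (pos_base x))
      filter_upwards [this] with t ht using hasDerivAt_prof ht)
    (hasDerivAt_prof' (pos_base x)) hq
  have hl : lap (fun y : E => ‖y‖ ^ 2) x = 6 := by
    unfold lap
    have e : ∀ i : Fin 3, pd i (pd i fun y : E => ‖y‖ ^ 2) x = 2 := by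
      intro i
      have e1 : pd i (fun y : E => ‖y‖ ^ 2) = fun y => 2 * y i := funext fun y => pd_norm_sq i y
      rw [e1, pd_const_mul 2 ((contDiff_coord i (n := 1)).differentiable (by norm_num) x), pd_coord]
      simp
    simp only [e, Finset.sum_const, Finset.card_univ, Fintype.card_fin, nsmul_eq_mul]
    norm_num
  have hg : gsq (fun y : E => ‖y‖ ^ 2) x = 4 * ‖x‖ ^ 2 := by
    unfold gsq
    simp only [pd_norm_sq]
    rw [norm_sq_eq3, Fin.sum_univ_three]; ring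
  rw [hl, hg] at h
  change lap uu x = _ at h
  rw [h, ff_eq (uu_ge x) (uu_lt x).le]
  unfold uu
  set B : ℝ := 1 + ‖x‖ ^ 2 with hB
  have hBp : 0 < B := pos_base x
  set s : ℝ := B ^ (-(1 / 3) : ℝ) with hs
  have e4 : B ^ (-(4 / 3) : ℝ) = s ^ 4 := by
    rw [hs, ← Real.rpow_natCast, ← Real.rpow_mul hBp.le]; norm_num
  have e7 : B ^ (-(7 / 3) : ℝ) = s ^ 7 := by
    rw [hs, ← Real.rpow_natCast, ← Real.rpow_mul hBp.le]; norm_num
  have e3 : B * s ^ 3 = 1 := by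
    have : s ^ 3 = B⁻¹ := by
      rw [hs, ← Real.rpow_natCast, ← Real.rpow_mul hBp.le, ← Real.rpow_neg_one]; norm_num
    rw [this]; exact mul_inv_cancel₀ hBp.ne'
  have hx2 : ‖x‖ ^ 2 = B - 1 := by rw [hB]; ring
  rw [e4, e7, hx2]
  have : B * s ^ 7 = s ^ 4 := by
    calc B * s ^ 7 = (B * s ^ 3) * s ^ 4 := by ring
      _ = s ^ 4 := by rw [e3, one_mul]
  linear_combination (-(16 / 9) : ℝ) * this

theorem fderiv_uu_eq_zero {x : E} : fderiv ℝ uu x = 0 ↔ x = 0 := by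
  constructor
  · intro h
    have h1 : ∀ i, x i = 0 := by
      intro i
      have h2 : pd i uu x = 0 := by rw [pd_def, h]; rfl
      rw [pd_uu] at h2
      have h3 := Real.rpow_pos_of_pos (pos_base x) (-(4 / 3) : ℝ)
      have h4 : (1 / 3) * (1 + ‖x‖ ^ 2) ^ (-(4 / 3) : ℝ) ≠ 0 := by positivity
      have := (mul_eq_zero.1 h2).resolve_left h4
      linarith
    ext i; simpa using h1 i
  · rintro rfl
    ext v
    rw [fderiv_eq_sum]
    simp [pd_uu]

theorem not_oneDim {e : E} {c : ℝ} {V : ℝ → ℝ}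
    (h : ∀ x, uu x = V (inner ℝ e x + c)) : False := by
  have key : ∃ y : E, y ≠ 0 ∧ inner ℝ e y = 0 := by
    by_cases h0 : e 0 = 0 ∧ e 1 = 0
    · refine ⟨bv 0, ?_, ?_⟩
      · intro h1
        have := congrArg (fun z : E => z 0) h1
        simp [bv] at this
      · rw [inner_bv]; exact h0.1
    · refine ⟨(-(e 1)) • bv 0 + (e 0) • bv 1, ?_, ?_⟩
      · intro h1
        apply h0
        have h2 := congrArg (fun z : E => z 0) h1
        have h3 := congrArg (fun z : E => z 1) h1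
        simp [bv] at h2 h3
        exact ⟨h3, h2⟩
      · rw [inner_add_right, inner_smul_right, inner_smul_right, inner_bv, inner_bv]; ring
  obtain ⟨y, hy, hy'⟩ := key
  have h1 := h y
  have h2 := h 0
  rw [hy'] at h1
  rw [inner_zero_right] at h2
  have h3 := uu_gt hy
  rw [h1, ← h2, uu_zero] at h3
  exact lt_irrefl _ h3

end Pool.Agent.Helper35.HS3.Radial
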